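import Mathlib

/-!
# Permutational wreath products

For a homomorphism `act : E →* Equiv.Perm Ω`, `Wr A act` is the (unrestricted) permutational
wreath product `A ≀_Ω E`, with multiplication `(f,e)(f',e') = (ω ↦ f (e' ω) * f' ω, e e')`.
-/

set_option autoImplicit false

namespace TFS

universe u v w

/-- permutational wreath product. -/
@[ext]
structure Wr (A : Type*) {E : Type*} {Ω : Type*} [Group E] (act : E →* Equiv.Perm Ω) where
  /-- the base coordinate -/
  v : Ω → A
  /-- the top coordinate -/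
  e : E

namespace Wr

variable {A : Type*} {E : Type*} {Ω : Type*} [Group A] [Group E] {act : E →* Equiv.Perm Ω}

instance : Mul (Wr A act) := ⟨fun x y => ⟨fun ω => x.v (act y.e ω) * y.v ω, x.e * y.e⟩⟩
instance : One (Wr A act) := ⟨⟨fun _ => 1, 1⟩⟩
instance : Inv (Wr A act) := ⟨fun x => ⟨fun ω => (x.v (act x.e⁻¹ ω))⁻¹, x.e⁻¹⟩⟩

@[simp] theorem mul_v (x y : Wr A act) (ω : Ω) : (x * y).v ω = x.v (act y.e ω) * y.v ω := rfl
@[simp] theorem mul_e (x y : Wr A act) : (x * y).e = x.e * y.e := rfl
@[simp] theorem one_v (ω : Ω) : (1 : Wr A act).v ω = 1 := rfl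
@[simp] theorem one_e : (1 : Wr A act).e = 1 := rfl
@[simp] theorem inv_v (x : Wr A act) (ω : Ω) : (x⁻¹).v ω = (x.v (act x.e⁻¹ ω))⁻¹ := rfl
@[simp] theorem inv_e (x : Wr A act) : (x⁻¹).e = x.e⁻¹ := rfl

theorem ext' {x y : Wr A act} (h : ∀ ω, x.v ω = y.v ω) (h' : x.e = y.e) : x = y :=
  Wr.ext (funext h) h'

instance : Group (Wr A act) :=
  Group.ofLeftAxioms
    (fun x y z => ext' (fun ω => by simp [mul_assoc]) (by simp [mul_assoc]))
    (fun x => ext' (fun ω => by simp) (by simp))
    (fun x => ext' (fun ω => by simp) (by simp))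

/-- the projection to the top group. -/
def top (act : E →* Equiv.Perm Ω) : Wr A act →* E where
  toFun := Wr.e
  map_one' := rfl
  map_mul' _ _ := rfl

@[simp] theorem top_apply (x : Wr A act) : top act x = x.e := rfl

/-- the top group inside the wreath product. -/
def inl (act : E →* Equiv.Perm Ω) : E →* Wr A act where
  toFun e := ⟨fun _ => 1, e⟩
  map_one' := rfl
  map_mul' _ _ := ext' (fun ω => by simp) rfl

@[simp] theorem inl_v (e : E) (ω : Ω) : (inl (A := A) act e).v ω = 1 := rfl
@[simp] theorem inl_e (e : E) : (inl (A := A) act e).e = e := rfl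

/-- the base group inside the wreath product. -/
def base (act : E →* Equiv.Perm Ω) : (Ω → A) →* Wr A act where
  toFun f := ⟨f, 1⟩
  map_one' := rfl
  map_mul' _ _ := ext' (fun ω => by simp) (by simp)

@[simp] theorem base_v (f : Ω → A) (ω : Ω) : (base act f).v ω = f ω := rfl
@[simp] theorem base_e (f : Ω → A) : (base act f).e = 1 := rfl

/-- the action of the wreath product on `Ω`. -/
def actW (act : E →* Equiv.Perm Ω) : Wr A act →* Equiv.Perm Ω := act.comp (top act)

@[simp] theorem actW_apply (x : Wr A act) : actW act x = act x.e := rfl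

/-- evaluation at a point fixed by the elements of a subgroup is a homomorphism. -/
def evalHom (S : Subgroup (Wr A act)) (ω : Ω) (h : ∀ x ∈ S, act x.e ω = ω) : S →* A where
  toFun x := x.1.v ω
  map_one' := rfl
  map_mul' x y := by simp [h y.1 y.2]

theorem v_mul_of_fix {x y : Wr A act} {ω : Ω} (h : act y.e ω = ω) :
    (x * y).v ω = x.v ω * y.v ω := by simp [h]

theorem v_pow_of_fix {x : Wr A act} {ω : Ω} (h : act x.e ω = ω) (n : ℕ) :
    (x ^ n).v ω = (x.v ω) ^ n := by
  induction n with
  | zero => simp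
  | succ n ih => rw [pow_succ, v_mul_of_fix h, ih, pow_succ]

theorem e_pow (x : Wr A act) (n : ℕ) : (x ^ n).e = x.e ^ n := map_pow (top act) x n

theorem e_zpow (x : Wr A act) (n : ℤ) : (x ^ n).e = x.e ^ n := map_zpow (top act) x n

theorem v_inv_of_fix {x : Wr A act} {ω : Ω} (h : act x.e ω = ω) :
    (x⁻¹).v ω = (x.v ω)⁻¹ := by
  rw [inv_v]
  congr 2
  rw [map_inv, Equiv.Perm.inv_eq_iff_eq]
  exact h.symm

theorem fix_inv {x : Wr A act} {ω : Ω} (h : act x.e ω = ω) : act (x⁻¹).e ω = ω := by
  rw [inv_e, map_inv, Equiv.Perm.inv_eq_iff_eq]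
  exact h.symm

/-- torsion-freeness. -/
theorem torsionFree (hA : ∀ a : A, a ≠ 1 → ¬ IsOfFinOrder a)
    (hE : ∀ e : E, e ≠ 1 → ¬ IsOfFinOrder e) : ∀ x : Wr A act, x ≠ 1 → ¬ IsOfFinOrder x := by
  intro x hx hfin
  have he : x.e = 1 := by
    by_contra h
    exact hE _ h ((top act).isOfFinOrder hfin)
  have : ∃ ω, x.v ω ≠ 1 := by
    by_contra h
    push Not at h
    exact hx (ext' h he)
  obtain ⟨ω, hω⟩ := this
  apply hA _ hω
  rw [isOfFinOrder_iff_pow_eq_one] at hfin ⊢
  obtain ⟨n, hn, hx⟩ := hfin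
  refine ⟨n, hn, ?_⟩
  rw [← v_pow_of_fix (by simp [he]), hx, one_v]

section Zero

variable [Fintype Ω]

/-- the product of the coordinates, in the abelianization. -/
noncomputable def sumHom (act : E →* Equiv.Perm Ω) : Wr A act →* Abelianization A where
  toFun x := ∏ ω, Abelianization.of (x.v ω)
  map_one' := by simp
  map_mul' x y := by
    simp only [mul_v, map_mul, Finset.prod_mul_distrib]
    congr 1
    exact Equiv.prod_comp (act y.e) (fun ω => Abelianization.of (x.v ω))

/-- the subgroup `A ≀₀ E` of elements with trivial total class in the abelianization. -/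
noncomputable def zero (A : Type*) [Group A] (act : E →* Equiv.Perm Ω) : Subgroup (Wr A act) :=
  (sumHom act).ker

theorem mem_zero {x : Wr A act} : x ∈ zero A act ↔ ∏ ω, Abelianization.of (x.v ω) = 1 := Iff.rfl

theorem inl_mem_zero (e : E) : inl act e ∈ zero A act := by
  rw [mem_zero]; simp

end Zero

end Wr

end TFS
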