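import Mathlib
import Pool.Agent.Lib_helper1.TFS.Wr

/-!
# The lifting property of finite index normal subgroups
-/

set_option autoImplicit false

namespace TFS

open Multiplicative (toAdd ofAdd)

variable {R : Type*} [Group R] {R' : Type*} [Group R']

/-- The lifting property: each element of prime order `p` of `R/K` is, on its preimage, the
reduction mod `p` of an integer valued homomorphism. -/
def LP (K : Subgroup R) : Prop :=
  ∀ p : ℕ, p.Prime → ∀ r : R, r ∉ K → r ^ p ∈ K →
    ∃ (L : Subgroup R) (χ : L →* Multiplicative ℤ) (hK : K ≤ L) (hr : r ∈ L),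
      (∀ x (hx : x ∈ K), (p : ℤ) ∣ toAdd (χ ⟨x, hK hx⟩)) ∧ (p : ℤ) ∣ toAdd (χ ⟨r, hr⟩) - 1

theorem LP.comap {K : Subgroup R} (h : LP K) (φ : R' →* R) : LP (K.comap φ) := by
  intro p hp r hr hrp
  obtain ⟨L, χ, hK, hr', h1, h2⟩ := h p hp (φ r) hr (by simpa using hrp)
  refine ⟨L.comap φ, χ.comp (φ.subgroupComap L), ?_, hr', ?_, ?_⟩
  · exact Subgroup.comap_mono hK
  · intro x hx
    exact h1 (φ x) hx
  · exact h2

theorem LP.inf {K₁ K₂ : Subgroup R} (h₁ : LP K₁) (h₂ : LP K₂) : LP (K₁ ⊓ K₂) := by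
  intro p hp r hr hrp
  rw [Subgroup.mem_inf] at hr hrp
  by_cases h : r ∈ K₁
  · obtain ⟨L, χ, hK, hr', h3, h4⟩ := h₂ p hp r (fun h' => hr ⟨h, h'⟩) hrp.2
    exact ⟨L, χ, inf_le_right.trans hK, hr', fun x hx => h3 x hx.2, h4⟩
  · obtain ⟨L, χ, hK, hr', h3, h4⟩ := h₁ p hp r h hrp.1
    exact ⟨L, χ, inf_le_left.trans hK, hr', fun x hx => h3 x hx.1, h4⟩

/-- If `K ≤ K₁`, `LP K₁` and every `r ∈ K₁ \ K` satisfies the lifting property, so does `K`. -/
theorem LP.of_le {K K₁ : Subgroup R} (hle : K ≤ K₁) (h₁ : LP K₁)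
    (h : ∀ p : ℕ, p.Prime → ∀ r : R, r ∈ K₁ → r ∉ K → r ^ p ∈ K →
      ∃ (L : Subgroup R) (χ : L →* Multiplicative ℤ) (hK : K ≤ L) (hr : r ∈ L),
      (∀ x (hx : x ∈ K), (p : ℤ) ∣ toAdd (χ ⟨x, hK hx⟩)) ∧ (p : ℤ) ∣ toAdd (χ ⟨r, hr⟩) - 1) :
    LP K := by
  intro p hp r hr hrp
  by_cases hr1 : r ∈ K₁
  · exact h p hp r hr1 hr hrp
  · obtain ⟨L, χ, hK, hr', h3, h4⟩ := h₁ p hp r hr1 (hle hrp)
    exact ⟨L, χ, hle.trans hK, hr', fun x hx => h3 x (hle hx), h4⟩

/-- good subgroups: normal, finite index, lifting property. -/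
structure Good (K : Subgroup R) : Prop where
  normal : K.Normal
  finiteIndex : K.FiniteIndex
  lp : LP K

theorem good_top : Good (⊤ : Subgroup R) where
  normal := inferInstance
  finiteIndex := inferInstance
  lp := fun _ _ r hr => absurd (Subgroup.mem_top r) hr

theorem Good.comap {K : Subgroup R} (h : Good K) (φ : R' →* R) : Good (K.comap φ) where
  normal := h.normal.comap φ
  finiteIndex := by
    have := h.finiteIndex
    have := h.normal
    have h1 : K.comap φ = ((QuotientGroup.mk' K).comp φ).ker := by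
      ext x; simp [MonoidHom.mem_ker]
    rw [h1]
    exact Subgroup.finiteIndex_ker _
  lp := h.lp.comap φ

theorem Good.inf {K₁ K₂ : Subgroup R} (h₁ : Good K₁) (h₂ : Good K₂) : Good (K₁ ⊓ K₂) where
  normal := by
    have := h₁.normal
    have := h₂.normal
    infer_instance
  finiteIndex := by
    have := h₁.finiteIndex
    have := h₂.finiteIndex
    infer_instance
  lp := h₁.lp.inf h₂.lp

/-- residually (finite with lifting property). -/
def RFL (R : Type*) [Group R] : Prop := ∀ r : R, r ≠ 1 → ∃ K : Subgroup R, Good K ∧ r ∉ K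

theorem RFL.of_injective (h : RFL R) (φ : R' →* R) (hφ : Function.Injective φ) : RFL R' := by
  intro r hr
  obtain ⟨K, hK, hrK⟩ := h (φ r) (by
    intro h1; apply hr; apply hφ; rw [h1, map_one])
  exact ⟨K.comap φ, hK.comap φ, hrK⟩

theorem RFL.prod (h : RFL R) (h' : RFL R') : RFL (R × R') := by
  intro r hr
  by_cases h1 : r.1 = 1
  · obtain ⟨K, hK, hrK⟩ := h' r.2 (by
      intro h2; exact hr (Prod.ext h1 h2))
    exact ⟨K.comap (MonoidHom.snd R R'), hK.comap _, hrK⟩
  · obtain ⟨K, hK, hrK⟩ := h r.1 h1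
    exact ⟨K.comap (MonoidHom.fst R R'), hK.comap _, hrK⟩

theorem RFL.finset (h : RFL R) (S : Finset R) : ∃ K : Subgroup R, Good K ∧ ∀ s ∈ S, s ≠ 1 → s ∉ K := by
  classical
  induction S using Finset.induction_on with
  | empty => exact ⟨⊤, good_top, by simp⟩
  | insert a S _ ih =>
    obtain ⟨K, hK, hS⟩ := ih
    by_cases ha : a = 1
    · refine ⟨K, hK, ?_⟩
      intro s hs hs1
      rw [Finset.mem_insert] at hs
      rcases hs with rfl | hs
      · exact absurd ha hs1
      · exact hS s hs hs1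
    · obtain ⟨K', hK', haK'⟩ := h a ha
      refine ⟨K ⊓ K', hK.inf hK', ?_⟩
      intro s hs hs1 hmem
      rw [Finset.mem_insert] at hs
      rcases hs with rfl | hs
      · exact haK' hmem.2
      · exact hS s hs hs1 hmem.1

section Wr

variable {A E Ω : Type*} [Group A] [Group E] {act : E →* Equiv.Perm Ω}

/-- reduction of a wreath product. -/
def Wr.red (K : Subgroup A) [K.Normal] (act : E →* Equiv.Perm Ω) :
    Wr A act →* Wr (A ⧸ K) (MonoidHom.id (Equiv.Perm Ω)) where
  toFun x := ⟨fun ω => (x.v ω : A ⧸ K), act x.e⟩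
  map_one' := by ext <;> simp
  map_mul' x y := Wr.ext' (fun ω => by simp) (by simp)

theorem Wr.mem_ker_red {K : Subgroup A} [K.Normal] {x : Wr A act} :
    x ∈ (Wr.red K act).ker ↔ act x.e = 1 ∧ ∀ ω, x.v ω ∈ K := by
  rw [MonoidHom.mem_ker]
  constructor
  · intro h
    refine ⟨congrArg Wr.e h, fun ω => ?_⟩
    have := congrFun (congrArg Wr.v h) ω
    exact (QuotientGroup.eq_one_iff _).1 this
  · rintro ⟨h1, h2⟩
    refine Wr.ext' (fun ω => ?_) h1
    exact (QuotientGroup.eq_one_iff _).2 (h2 ω)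

instance Wr.finite {A E Ω : Type*} [Group E] {act : E →* Equiv.Perm Ω} [Finite A] [Finite E]
    [Finite Ω] : Finite (Wr A act) := by
  have : Function.Injective (fun x : Wr A act => (x.v, x.e)) := by
    intro x y h
    simp only [Prod.mk.injEq] at h
    exact Wr.ext h.1 h.2
  exact Finite.of_injective _ this

theorem good_ker_red [Finite Ω] {K : Subgroup A} [K.Normal] (hK : Good K)
    (hact : LP act.ker) : Good (Wr.red K act).ker where
  normal := inferInstance
  finiteIndex := by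
    have := hK.finiteIndex
    exact Subgroup.finiteIndex_ker _
  lp := by
    refine LP.of_le (K₁ := act.ker.comap (Wr.top act)) ?_ (hact.comap _) ?_
    · intro x hx
      rw [Wr.mem_ker_red] at hx
      exact hx.1
    · intro p hp r hr1 hr2 hrp
      have hre : act r.e = 1 := hr1
      rw [Wr.mem_ker_red] at hr2 hrp
      push Not at hr2
      obtain ⟨ω, hω⟩ := hr2 hre
      have hωp : (r.v ω) ^ p ∈ K := by
        rw [← Wr.v_pow_of_fix (by simp [hre])]
        exact hrp.2 ω
      obtain ⟨L, χ, hKL, hrL, h1, h2⟩ := hK.lp p hp (r.v ω) hω hωp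
      let S : Subgroup (Wr A act) :=
        { carrier := {x | act x.e = 1 ∧ x.v ω ∈ L}
          mul_mem' := by
            rintro x y ⟨hx, hx'⟩ ⟨hy, hy'⟩
            refine ⟨by simp [hx, hy], ?_⟩
            rw [Wr.mul_v, hy]
            exact mul_mem hx' hy'
          one_mem' := ⟨by simp, one_mem _⟩
          inv_mem' := by
            rintro x ⟨hx, hx'⟩
            refine ⟨by simp [hx], ?_⟩
            rw [Wr.v_inv_of_fix (by simp [hx])]
            exact inv_mem hx' }
      let ψ : S →* L :=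
        { toFun := fun x => ⟨x.1.v ω, x.2.2⟩
          map_one' := rfl
          map_mul' := by
            rintro ⟨x, hx, hx'⟩ ⟨y, hy, hy'⟩
            ext
            simp [hy] }
      refine ⟨S, χ.comp ψ, ?_, ⟨hre, hrL⟩, ?_, h2⟩
      · intro x hx
        rw [Wr.mem_ker_red] at hx
        exact ⟨hx.1, hKL (hx.2 ω)⟩
      · intro x hx
        rw [Wr.mem_ker_red] at hx
        exact h1 _ (hx.2 ω)

theorem RFL.wr [Finite Ω] (hA : RFL A) (hE : RFL E) (hact : LP act.ker) : RFL (Wr A act) := by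
  intro r hr
  by_cases he : r.e = 1
  · have : ∃ ω, r.v ω ≠ 1 := by
      by_contra h
      push Not at h
      exact hr (Wr.ext' h he)
    obtain ⟨ω, hω⟩ := this
    obtain ⟨K, hK, hrK⟩ := hA _ hω
    have := hK.normal
    refine ⟨_, good_ker_red hK hact, ?_⟩
    rw [Wr.mem_ker_red]
    exact fun h => hrK (h.2 ω)
  · obtain ⟨K, hK, hrK⟩ := hE _ he
    exact ⟨K.comap (Wr.top act), hK.comap _, hrK⟩

end Wr

end TFS
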