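import Mathlib
import Pool.Agent.Lib_helper1.TFS.LP

/-!
# Torsion-free covers of finite groups
-/

set_option autoImplicit false

namespace TFS

open Multiplicative (toAdd ofAdd)

section Lift

variable {G Q : Type*} [Group G] [Group Q]

theorem exists_chi (ρ : G →* Q) (hρ : LP ρ.ker) (σ : Q) (hσ : (orderOf σ).Prime) (u : Q) :
    ∃ X : G → ℤ, (∀ r, u⁻¹ * ρ r * u ∈ Subgroup.zpowers σ → u⁻¹ * ρ r * u = σ ^ (X r)) ∧
      (∀ r r', u⁻¹ * ρ r * u ∈ Subgroup.zpowers σ → u⁻¹ * ρ r' * u ∈ Subgroup.zpowers σ →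
        X (r * r') = X r + X r') := by
  classical
  by_cases hall : ∀ r, u⁻¹ * ρ r * u ∈ Subgroup.zpowers σ → u⁻¹ * ρ r * u = 1
  · exact ⟨fun _ => 0, fun r hr => by simp [hall r hr], fun _ _ _ _ => by simp⟩
  · push Not at hall
    obtain ⟨r₁, hr₁, hr₁'⟩ := hall
    obtain ⟨j, hj⟩ := hr₁
    simp only at hj
    -- find `r₀` with `u⁻¹ ρ r₀ u = σ`
    have hcop : IsCoprime j (orderOf σ : ℤ) := by
      rw [Int.isCoprime_iff_gcd_eq_one, Int.gcd_comm]
      rw [← Int.natAbs_natCast (orderOf σ)] at hσ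
      rcases (Nat.Prime.coprime_iff_not_dvd hσ (n := j.natAbs)) with h
      refine h.2 ?_
      intro hd
      apply hr₁'
      rw [← hj]
      rw [Int.natAbs_dvd_natAbs] at hd
      exact orderOf_dvd_iff_zpow_eq_one.1 hd
    obtain ⟨m, n, hmn⟩ := hcop
    have hconj : ∀ r : G, ∀ k : ℤ, u⁻¹ * ρ (r ^ k) * u = (u⁻¹ * ρ r * u) ^ k := by
      intro r k
      have := (conj_zpow (a := u⁻¹) (b := ρ r) (i := k))
      rw [inv_inv] at this
      rw [this, map_zpow]
    obtain ⟨r₀, hr₀⟩ : ∃ r₀, u⁻¹ * ρ r₀ * u = σ := by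
      refine ⟨r₁ ^ m, ?_⟩
      rw [hconj, ← hj, ← zpow_mul]
      have h1 : σ ^ (j * m) = σ ^ (1 : ℤ) := by
        rw [← orderOf_dvd_sub_iff_zpow_eq_zpow]
        exact ⟨-n, by linarith⟩
      rw [h1, zpow_one]
    have hσ1 : σ ≠ 1 := by
      intro h; rw [h, orderOf_one] at hσ; exact Nat.not_prime_one hσ
    have hk : r₀ ∉ ρ.ker := by
      intro h
      rw [MonoidHom.mem_ker] at h
      apply hσ1
      rw [← hr₀, h]; simp
    have hkp : r₀ ^ (orderOf σ) ∈ ρ.ker := by
      rw [MonoidHom.mem_ker]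
      have h1 := hconj r₀ (orderOf σ : ℤ)
      rw [hr₀, zpow_natCast, zpow_natCast, pow_orderOf_eq_one] at h1
      have h2 : ρ (r₀ ^ orderOf σ) = u * (u⁻¹ * ρ (r₀ ^ orderOf σ) * u) * u⁻¹ := by group
      rw [h2, h1]; simp
    obtain ⟨L, χ, hK, hrL, h1, h2⟩ := hρ _ hσ r₀ hk hkp
    have key : ∀ r, ∀ n : ℤ, u⁻¹ * ρ r * u = σ ^ n → r * r₀ ^ (-n) ∈ ρ.ker := by
      intro r n hn
      rw [MonoidHom.mem_ker, map_mul]
      have h3 : ρ (r₀ ^ (-n)) = u * (u⁻¹ * ρ (r₀ ^ (-n)) * u) * u⁻¹ := by group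
      have h4 : ρ r = u * (u⁻¹ * ρ r * u) * u⁻¹ := by group
      rw [h3, h4, hconj, hr₀, hn]
      group
    have hmem : ∀ r, u⁻¹ * ρ r * u ∈ Subgroup.zpowers σ → r ∈ L := by
      rintro r ⟨n, hn⟩
      have h3 := hK (key r n hn.symm)
      have h4 : r = (r * r₀ ^ (-n)) * r₀ ^ n := by group
      rw [h4]
      exact mul_mem h3 (zpow_mem hrL n)
    refine ⟨fun r => if h : r ∈ L then toAdd (χ ⟨r, h⟩) else 0, ?_, ?_⟩
    · intro r hr
      have hrL' := hmem r hr
      obtain ⟨n, hn⟩ := hr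
      simp only at hn
      simp only [hrL', dif_pos]
      rw [← hn, ← orderOf_dvd_sub_iff_zpow_eq_zpow]
      have h3 := key r n hn.symm
      have h4 : (⟨r, hrL'⟩ : L) = ⟨r * r₀ ^ (-n), hK h3⟩ * (⟨r₀, hrL⟩ : L) ^ n := by
        ext
        simp
      rw [h4, map_mul, map_zpow, toAdd_mul, toAdd_zpow]
      have h5 := h1 _ h3
      obtain ⟨c, hc⟩ := h5
      obtain ⟨d, hd⟩ := h2
      rw [hc]
      refine ⟨-(c + n * d), ?_⟩
      have : toAdd (χ ⟨r₀, hrL⟩) = 1 + (orderOf σ : ℤ) * d := by linarith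
      rw [this, smul_eq_mul]
      ring
    · intro r r' hr hr'
      have e1 := hmem r hr
      have e2 := hmem r' hr'
      simp only [e1, e2, mul_mem e1 e2, dif_pos]
      rw [← toAdd_mul, ← map_mul]
      rfl

/-- lifting data for one element of prime order. -/
theorem exists_liftData (ρ : G →* Q) (hρ : LP ρ.ker) (σ : Q) (hσ : (orderOf σ).Prime) :
    ∃ (t : Q → ℤ) (a : G → Q → ℤ), (∀ u, (orderOf σ : ℤ) ∣ t (u * σ) - t u - 1) ∧
      (∀ r u, a r (u * σ) = a r u) ∧ (∀ r r' u, a (r * r') u = a r (ρ r' * u) + a r' u) ∧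
      (∀ r u, (orderOf σ : ℤ) ∣ a r u - (t (ρ r * u) - t u)) := by
  classical
  choose X hX1 hX2 using exists_chi ρ hρ σ hσ
  -- the double coset relation
  let s : Setoid Q :=
    { r := fun u u' => ∃ (r : G) (n : ℤ), u' = ρ r * u * σ ^ n
      iseqv :=
        { refl := fun u => ⟨1, 0, by simp⟩
          symm := by
            rintro u u' ⟨r, n, h⟩
            refine ⟨r⁻¹, -n, ?_⟩
            rw [h, map_inv]; group
          trans := by
            rintro u u' u'' ⟨r, n, h⟩ ⟨r', n', h'⟩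
            refine ⟨r' * r, n + n', ?_⟩
            rw [h', h, map_mul, zpow_add]; group } }
  let rep : Q → Q := fun u => (Quotient.mk s u).out
  have hrep : ∀ u, ∃ (r : G) (n : ℤ), u = ρ r * rep u * σ ^ n := by
    intro u
    exact Quotient.exact (Quotient.out_eq (Quotient.mk s u))
  have hrep_eq : ∀ u u', (∃ (r : G) (n : ℤ), u' = ρ r * u * σ ^ n) → rep u' = rep u := by
    intro u u' h
    show (Quotient.mk s u').out = (Quotient.mk s u).out
    rw [Quotient.sound (s.symm h)]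
  choose r' n' hr' using hrep
  -- `rr u` depends only on the coset of `u`
  let v : Q → Q := fun u => ((u : Q ⧸ Subgroup.zpowers σ)).out
  have hv : ∀ u, ∃ m : ℤ, u = v u * σ ^ m := by
    intro u
    have h : ((v u : Q) : Q ⧸ Subgroup.zpowers σ) = (u : Q ⧸ Subgroup.zpowers σ) :=
      Quotient.out_eq' _
    rw [QuotientGroup.eq] at h
    obtain ⟨m, hm⟩ := h
    refine ⟨m, ?_⟩
    simp only at hm
    rw [hm]; group
  have hvσ : ∀ u, v (u * σ) = v u := by
    intro u
    show ((u * σ : Q) : Q ⧸ Subgroup.zpowers σ).out = ((u : Q) : Q ⧸ Subgroup.zpowers σ).out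
    congr 1
    rw [QuotientGroup.eq]
    refine ⟨-1, by simp⟩
  let rr : Q → G := fun u => r' (v u)
  have hrr : ∀ u, ∃ t : ℤ, u = ρ (rr u) * rep u * σ ^ t := by
    intro u
    obtain ⟨m, hm⟩ := hv u
    refine ⟨n' (v u) + m, ?_⟩
    have h1 := hr' (v u)
    have h2 : rep (v u) = rep u := by
      symm
      apply hrep_eq
      exact ⟨1, m, by rw [map_one, one_mul]; exact hm⟩
    rw [h2] at h1
    calc u = v u * σ ^ m := hm
      _ = (ρ (r' (v u)) * rep u * σ ^ n' (v u)) * σ ^ m := by rw [← h1]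
      _ = _ := by rw [zpow_add]; simp only [rr, mul_assoc]
  choose t ht using hrr
  have hrrσ : ∀ u, rr (u * σ) = rr u := fun u => by
    show r' (v (u * σ)) = r' (v u)
    rw [hvσ]
  have hrepσ : ∀ u, rep (u * σ) = rep u := fun u => hrep_eq _ _ ⟨1, 1, by simp⟩
  have hrepρ : ∀ r u, rep (ρ r * u) = rep u := fun r u => hrep_eq _ _ ⟨r, 0, by simp⟩
  let a : G → Q → ℤ := fun r u => X (rep u) ((rr (ρ r * u))⁻¹ * r * rr u)
  have hmem : ∀ r u, (rep u)⁻¹ * ρ ((rr (ρ r * u))⁻¹ * r * rr u) * rep u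
      = σ ^ (t (ρ r * u) - t u) := by
    intro r u
    have h1 : ρ (rr u) * rep u = u * σ ^ (-(t u)) := by
      rw [zpow_neg]
      exact eq_mul_inv_of_mul_eq (ht u).symm
    have h2 : ρ (rr (ρ r * u)) * rep u = ρ r * u * σ ^ (-(t (ρ r * u))) := by
      have h3 := ht (ρ r * u)
      rw [hrepρ] at h3
      rw [zpow_neg]
      exact eq_mul_inv_of_mul_eq h3.symm
    have h4 : (rep u)⁻¹ * ρ ((rr (ρ r * u))⁻¹ * r * rr u) * rep u
        = (ρ (rr (ρ r * u)) * rep u)⁻¹ * ρ r * (ρ (rr u) * rep u) := by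
      rw [map_mul, map_mul, map_inv]; group
    rw [h4, h1, h2]
    rw [zpow_sub]
    group
  refine ⟨t, a, ?_, ?_, ?_, ?_⟩
  · intro u
    have h1 := ht (u * σ)
    rw [hrrσ, hrepσ] at h1
    have h2 : σ ^ (t (u * σ)) = σ ^ (t u + 1) := by
      have h3 : u * σ = ρ (rr u) * rep u * σ ^ (t u + 1) := by
        rw [zpow_add, zpow_one, ← mul_assoc, ← ht u]
      exact mul_left_cancel (h1.symm.trans h3)
    rw [← orderOf_dvd_sub_iff_zpow_eq_zpow] at h2
    rw [sub_sub]
    exact h2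
  · intro r u
    show X (rep (u * σ)) ((rr (ρ r * (u * σ)))⁻¹ * r * rr (u * σ)) = _
    rw [hrepσ, ← mul_assoc (ρ r) u σ, hrrσ, hrrσ]
  · intro r r₁ u
    show X (rep u) ((rr (ρ (r * r₁) * u))⁻¹ * (r * r₁) * rr u)
      = X (rep (ρ r₁ * u)) ((rr (ρ r * (ρ r₁ * u)))⁻¹ * r * rr (ρ r₁ * u))
        + X (rep u) ((rr (ρ r₁ * u))⁻¹ * r₁ * rr u)
    have h1 := hmem r (ρ r₁ * u)
    have h2 := hmem r₁ u
    rw [hrepρ] at h1 ⊢
    rw [← hX2 (rep u) _ _ (by rw [h1]; exact ⟨_, rfl⟩) (by rw [h2]; exact ⟨_, rfl⟩)]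
    congr 1
    rw [map_mul, mul_assoc (ρ r)]
    group
  · intro r u
    rw [orderOf_dvd_sub_iff_zpow_eq_zpow]
    rw [← hX1 (rep u) _ (by rw [hmem]; exact ⟨_, rfl⟩)]
    exact hmem r u

end Lift

section EQ

variable {Q : Type*} [Group Q]

/-- elements of prime order. -/
abbrev PO (Q : Type*) [Group Q] := {σ : Q // (orderOf σ).Prime}

/-- the left regular action. -/
abbrev regAct (Q : Type*) [Group Q] : Q →* Equiv.Perm Q := MulAction.toPermHom Q Q

/-- the torsion-free cover of `Q` attached to `t`. -/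
def EQ (t : PO Q → Q → ℤ) : Subgroup (Wr (PO Q → Multiplicative ℤ) (regAct Q)) where
  carrier := {x | ∀ (σ : PO Q) (u : Q), x.v (u * σ.1) σ = x.v u σ ∧
    (orderOf σ.1 : ℤ) ∣ toAdd (x.v u σ) - (t σ (x.e * u) - t σ u)}
  mul_mem' := by
    intro x y hx hy σ u
    refine ⟨?_, ?_⟩
    · have h1 := (hy σ u).1
      have h2 := (hx σ (y.e * u)).1
      simp only [Wr.mul_v, MulAction.toPermHom_apply, MulAction.toPerm_apply, smul_eq_mul,
        Pi.mul_apply]
      rw [h1, ← mul_assoc, h2]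
    · have h1 := (hy σ u).2
      have h2 := (hx σ (y.e * u)).2
      simp only [Wr.mul_v, MulAction.toPermHom_apply, MulAction.toPerm_apply, smul_eq_mul,
        Pi.mul_apply, toAdd_mul, Wr.mul_e]
      rw [mul_assoc]
      obtain ⟨c, hc⟩ := h1
      obtain ⟨d, hd⟩ := h2
      exact ⟨c + d, by linarith⟩
  one_mem' := by
    intro σ u
    simp
  inv_mem' := by
    intro x hx σ u
    refine ⟨?_, ?_⟩
    · have h2 := (hx σ (x.e⁻¹ * u)).1
      simp only [Wr.inv_v, MulAction.toPermHom_apply, MulAction.toPerm_apply, smul_eq_mul,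
        Pi.inv_apply]
      rw [← mul_assoc, h2]
    · have h2 := (hx σ (x.e⁻¹ * u)).2
      simp only [Wr.inv_v, MulAction.toPermHom_apply, MulAction.toPerm_apply, smul_eq_mul,
        Pi.inv_apply, toAdd_inv, Wr.inv_e]
      rw [mul_inv_cancel_left] at h2
      obtain ⟨d, hd⟩ := h2
      exact ⟨-d, by linarith⟩

variable {t : PO Q → Q → ℤ}

/-- the projection `E_Q → Q`. -/
def EQ.top (t : PO Q → Q → ℤ) : EQ t →* Q := (Wr.top (regAct Q)).comp (EQ t).subtype

@[simp] theorem EQ.top_apply (x : EQ t) : EQ.top t x = x.1.e := rfl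

theorem EQ.inv_right (x : EQ t) (σ : PO Q) (u : Q) (n : ℤ) :
    x.1.v (u * σ.1 ^ n) σ = x.1.v u σ := by
  induction n with
  | zero => simp
  | succ n ih => rw [zpow_add_one, ← mul_assoc, (x.2 σ _).1, ih]
  | pred n ih =>
    rw [← ih, ← (x.2 σ (u * σ.1 ^ (-(n : ℤ) - 1))).1, mul_assoc, ← zpow_add_one]
    rw [show (-(n : ℤ) - 1 + 1) = -(n : ℤ) by ring]

theorem EQ.top_surjective (ht : ∀ σ u, (orderOf σ.1 : ℤ) ∣ t σ (u * σ.1) - t σ u - 1) :
    Function.Surjective (EQ.top t) := by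
  intro τ
  refine ⟨⟨⟨fun u σ => ofAdd ((t σ (τ * u) - t σ u) % (orderOf σ.1 : ℤ)), τ⟩, ?_⟩, rfl⟩
  intro σ u
  refine ⟨?_, ?_⟩
  · simp only
    congr 1
    apply Int.ModEq.eq
    rw [Int.modEq_iff_dvd]
    have h1 := ht σ u
    have h2 := ht σ (τ * u)
    rw [mul_assoc] at h2
    obtain ⟨c, hc⟩ := h1
    obtain ⟨d, hd⟩ := h2
    exact ⟨c - d, by linarith⟩
  · simp only [toAdd_ofAdd]
    exact (Int.mod_modEq _ _).symm.dvd

theorem EQ.ker_comm (x y : EQ t) (hx : EQ.top t x = 1) (hy : EQ.top t y = 1) :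
    x * y = y * x := by
  ext1
  have hx' : x.1.e = 1 := hx
  have hy' : y.1.e = 1 := hy
  refine Wr.ext' (fun u => ?_) ?_
  · simp [hx', hy', mul_comm]
  · simp [hx', hy']

/-- the value at `1` of the `σ`-coordinate is a homomorphism on the preimage of `⟨σ⟩`. -/
theorem EQ.lp_top (ht : ∀ σ u, (orderOf σ.1 : ℤ) ∣ t σ (u * σ.1) - t σ u - 1) :
    LP (EQ.top t).ker := by
  intro p hp r hr hrp
  have hr' : r.1.e ≠ 1 := hr
  have hrp' : r.1.e ^ p = 1 := by
    rw [MonoidHom.mem_ker, map_pow] at hrp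
    exact hrp
  have : Fact p.Prime := ⟨hp⟩
  have hord : orderOf r.1.e = p := orderOf_eq_prime hrp' hr'
  let σ : PO Q := ⟨r.1.e, by rw [hord]; exact hp⟩
  let L : Subgroup (EQ t) := (Subgroup.zpowers σ.1).comap (EQ.top t)
  refine ⟨L, ?_, ?_, ?_, ?_, ?_⟩
  · exact
      { toFun := fun x => x.1.1.v 1 σ
        map_one' := rfl
        map_mul' := by
          rintro ⟨x, hx⟩ ⟨y, hy⟩
          obtain ⟨n, hn⟩ := hy
          have hn' : σ.1 ^ n = y.1.e := hn
          show (x.1 * y.1).v 1 σ = x.1.v 1 σ * y.1.v 1 σ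
          simp only [Wr.mul_v, MulAction.toPermHom_apply, MulAction.toPerm_apply, smul_eq_mul,
            Pi.mul_apply, mul_one]
          have := EQ.inv_right x σ 1 n
          rw [one_mul] at this
          rw [← hn', this] }
  · intro x hx
    rw [MonoidHom.mem_ker] at hx
    show EQ.top t x ∈ Subgroup.zpowers σ.1
    rw [hx]
    exact one_mem _
  · exact ⟨1, by simp [σ]⟩
  · intro x hx
    have h1 := (x.2 σ 1).2
    have hx' : x.1.e = 1 := hx
    rw [hx', one_mul, sub_self, sub_zero] at h1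
    have h2 : orderOf σ.1 = p := hord
    rw [h2] at h1
    exact h1
  · have h1 := (r.2 σ 1).2
    have h2 : orderOf σ.1 = p := hord
    have h3 := ht σ 1
    rw [h2] at h1 h3
    rw [mul_one] at h1
    rw [one_mul] at h3
    obtain ⟨c, hc⟩ := h1
    obtain ⟨d, hd⟩ := h3
    have hd' : t σ r.1.e - t σ 1 - 1 = p * d := hd
    refine ⟨c + d, ?_⟩
    show toAdd (r.1.v 1 σ) - 1 = _
    linarith

theorem EQ.torsionFree (ht : ∀ σ u, (orderOf σ.1 : ℤ) ∣ t σ (u * σ.1) - t σ u - 1) [Finite Q] :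
    ∀ x : EQ t, x ≠ 1 → ¬ IsOfFinOrder x := by
  -- elements of the kernel have infinite order
  have hker : ∀ x : EQ t, x.1.e = 1 → IsOfFinOrder x → x = 1 := by
    intro x hx hfin
    rw [isOfFinOrder_iff_pow_eq_one] at hfin
    obtain ⟨n, hn, hx1⟩ := hfin
    ext1
    refine Wr.ext' (fun u => ?_) hx
    have h1 : (x.1 ^ n).v u = 1 := by
      have : x.1 ^ n = 1 := by
        have := congrArg Subtype.val hx1
        simpa using this
      rw [this]; rfl
    rw [Wr.v_pow_of_fix (by simp [hx])] at h1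
    funext σ
    have h2 := congrFun h1 σ
    simp only [Pi.pow_apply, Pi.one_apply] at h2 ⊢
    have h3 : n • toAdd (x.1.v u σ) = 0 := by
      rw [← toAdd_pow, h2]; rfl
    rw [nsmul_eq_mul, mul_eq_zero] at h3
    rcases h3 with h3 | h3
    · have : n = 0 := by exact_mod_cast h3
      omega
    · exact h3
  intro x hx hfin
  by_cases hxe : x.1.e = 1
  · exact hx (hker x hxe hfin)
  · -- pass to a power whose image has prime order
    have hfinQ : IsOfFinOrder x.1.e := isOfFinOrder_of_finite _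
    have hord1 : orderOf x.1.e ≠ 1 := by rwa [Ne, orderOf_eq_one_iff]
    obtain ⟨p, hp, hpd⟩ := Nat.exists_prime_and_dvd hord1
    obtain ⟨m, hm⟩ := hpd
    have hpos : 0 < orderOf x.1.e := hfinQ.orderOf_pos
    have hm0 : m ≠ 0 := by rintro rfl; omega
    set y : EQ t := x ^ m with hy
    have hye : y.1.e = x.1.e ^ m := by
      show (EQ.top t) (x ^ m) = _
      rw [map_pow]; rfl
    have hyord : orderOf y.1.e = p := by
      rw [hye, orderOf_pow' _ hm0, hm, Nat.gcd_eq_right (Dvd.intro_left p rfl)]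
      exact Nat.mul_div_cancel _ (Nat.pos_of_ne_zero hm0)
    have hyfin : IsOfFinOrder y := hfin.pow
    let σ : PO Q := ⟨y.1.e, by rw [hyord]; exact hp⟩
    -- powers of `y` at `1`
    have hpow : ∀ n : ℕ, (y ^ n).1.v 1 σ = (y.1.v 1 σ) ^ n := by
      intro n
      induction n with
      | zero => rw [pow_zero, pow_zero]; rfl
      | succ n ih =>
        have h1 : (y ^ (n + 1)).1.v 1 σ = (y ^ n).1.v (y.1.e * 1) σ * y.1.v 1 σ := by
          rw [pow_succ]; rfl
        rw [h1, mul_one]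
        have h2 := EQ.inv_right (y ^ n) σ 1 1
        rw [one_mul, zpow_one] at h2
        rw [show y.1.e = σ.1 from rfl, h2, ih, pow_succ]
    rw [isOfFinOrder_iff_pow_eq_one] at hyfin
    obtain ⟨n, hn, hy1⟩ := hyfin
    have h1 := hpow n
    rw [hy1] at h1
    have h2 : n • toAdd (y.1.v 1 σ) = 0 := by
      rw [← toAdd_pow, ← h1]; rfl
    rw [nsmul_eq_mul, mul_eq_zero] at h2
    have h3 : toAdd (y.1.v 1 σ) = 0 := by
      rcases h2 with h2 | h2
      · have : n = 0 := by exact_mod_cast h2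
        omega
      · exact h2
    have h4 := (y.2 σ 1).2
    have h5 := ht σ 1
    rw [h3, mul_one] at h4
    rw [one_mul] at h5
    have h6 := dvd_add h4 h5
    have h7 : (0 : ℤ) - (t σ y.1.e - t σ 1) + (t σ σ.1 - t σ 1 - 1) = -1 := by
      show (0 : ℤ) - (t σ σ.1 - t σ 1) + (t σ σ.1 - t σ 1 - 1) = -1
      ring
    rw [h7, hyord, dvd_neg] at h6
    have h8 := Int.eq_one_of_dvd_one (by positivity) h6
    have : p = 1 := by exact_mod_cast h8
    exact hp.one_lt.ne' this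

/-- lifting a homomorphism to the cover. -/
def EQ.lift {G : Type*} [Group G] (ρ : G →* Q) (a : PO Q → G → Q → ℤ)
    (h1 : ∀ σ r u, a σ r (u * σ.1) = a σ r u)
    (h2 : ∀ σ r r' u, a σ (r * r') u = a σ r (ρ r' * u) + a σ r' u)
    (h3 : ∀ σ r u, (orderOf σ.1 : ℤ) ∣ a σ r u - (t σ (ρ r * u) - t σ u)) : G →* EQ t :=
  MonoidHom.mk' (fun r => ⟨⟨fun u σ => ofAdd (a σ r u), ρ r⟩, fun σ u => ⟨by simp [h1], by
    simpa using h3 σ r u⟩⟩) (by
      intro r r'
      ext1
      refine Wr.ext' (fun u => ?_) (by simp)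
      funext σ
      simp [h2])

theorem EQ.top_lift {G : Type*} [Group G] (ρ : G →* Q) (a : PO Q → G → Q → ℤ)
    (h1 : ∀ σ r u, a σ r (u * σ.1) = a σ r u)
    (h2 : ∀ σ r r' u, a σ (r * r') u = a σ r (ρ r' * u) + a σ r' u)
    (h3 : ∀ σ r u, (orderOf σ.1 : ℤ) ∣ a σ r u - (t σ (ρ r * u) - t σ u)) (r : G) :
    EQ.top t (EQ.lift ρ a h1 h2 h3 r) = ρ r := rfl

/-- the finite quotient recording the coordinates modulo `M`. -/
def EQ.modHom (t : PO Q → Q → ℤ) (M : ℕ) :
    EQ t →* Wr (PO Q → Multiplicative (ZMod M)) (regAct Q) where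
  toFun x := ⟨fun u σ => ofAdd ((toAdd (x.1.v u σ) : ℤ) : ZMod M), x.1.e⟩
  map_one' := by
    refine Wr.ext' (fun u => ?_) rfl
    funext σ
    simp
  map_mul' x y := by
    refine Wr.ext' (fun u => ?_) rfl
    funext σ
    simp

theorem EQ.rfl' (ht : ∀ σ u, (orderOf σ.1 : ℤ) ∣ t σ (u * σ.1) - t σ u - 1) [Finite Q] :
    RFL (EQ t) := by
  intro r hr
  by_cases he : r.1.e = 1
  · -- some coordinate is nonzero
    have : ∃ u σ, toAdd (r.1.v u σ) ≠ 0 := by
      by_contra h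
      push Not at h
      apply hr
      ext1
      refine Wr.ext' (fun u => ?_) he
      funext σ
      exact h u σ
    obtain ⟨u₀, σ₀, hne⟩ := this
    set M : ℕ := (toAdd (r.1.v u₀ σ₀)).natAbs + 1 with hM
    have : NeZero M := ⟨by omega⟩
    have hmemM : ∀ x : EQ t, x ∈ (EQ.modHom t M).ker ↔
        x.1.e = 1 ∧ ∀ u σ, (M : ℤ) ∣ toAdd (x.1.v u σ) := by
      intro x
      rw [MonoidHom.mem_ker]
      constructor
      · intro h
        refine ⟨congrArg Wr.e h, fun u σ => ?_⟩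
        have := congrFun (congrFun (congrArg Wr.v h) u) σ
        have h2 : ((toAdd (x.1.v u σ) : ℤ) : ZMod M) = 0 := congrArg toAdd this
        exact (ZMod.intCast_zmod_eq_zero_iff_dvd _ _).1 h2
      · rintro ⟨h1, h2⟩
        refine Wr.ext' (fun u => ?_) h1
        funext σ
        exact congrArg ofAdd ((ZMod.intCast_zmod_eq_zero_iff_dvd _ _).2 (h2 u σ))
    refine ⟨(EQ.modHom t M).ker, ?_, ?_⟩
    · refine ⟨inferInstance, Subgroup.finiteIndex_ker _, ?_⟩
      refine LP.of_le (K₁ := (EQ.top t).ker) ?_ (EQ.lp_top ht) ?_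
      · intro x hx
        exact ((hmemM x).1 hx).1
      · intro p hp x hx hxM hxp
        have hxe : x.1.e = 1 := hx
        rw [hmemM] at hxM hxp
        push Not at hxM
        obtain ⟨u, σ, huσ⟩ := hxM hxe
        have hp1 : (M : ℤ) ∣ p * toAdd (x.1.v u σ) := by
          have h1 := hxp.2 u σ
          have h2 : (x ^ p).1.v u = (x.1.v u) ^ p := by
            have : (x ^ p).1 = x.1 ^ p := rfl
            rw [this, Wr.v_pow_of_fix (by simp [hxe])]
          rw [h2, Pi.pow_apply, toAdd_pow, nsmul_eq_mul] at h1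
          exact h1
        -- `p ∣ M`
        have hpM : p ∣ M := by
          by_contra hcon
          have hc : IsCoprime (M : ℤ) (p : ℤ) := by
            rw [Nat.isCoprime_iff_coprime]
            exact ((Nat.Prime.coprime_iff_not_dvd hp).2 hcon).symm
          exact huσ (hc.dvd_of_dvd_mul_left hp1)
        obtain ⟨M', hM'⟩ := hpM
        have hp0 : (p : ℤ) ≠ 0 := by exact_mod_cast hp.ne_zero
        have hM'0 : (M' : ℤ) ≠ 0 := by
          have : M' ≠ 0 := by rintro rfl; omega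
          exact_mod_cast this
        have hM'' : (M : ℤ) = p * M' := by exact_mod_cast hM'
        obtain ⟨w, hw⟩ : (M' : ℤ) ∣ toAdd (x.1.v u σ) := by
          rw [hM''] at hp1
          exact Int.dvd_of_mul_dvd_mul_left hp0 hp1
        have hpw : ¬ (p : ℤ) ∣ w := by
          rintro ⟨c, hc⟩
          apply huσ
          rw [hw, hc, hM'']
          exact ⟨c, by ring⟩
        have hcop : IsCoprime w (p : ℤ) := by
          rw [isCoprime_comm]
          rw [← Int.natAbs_natCast p] at hp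
          exact (Prime.coprime_iff_not_dvd (Int.prime_iff_natAbs_prime.2 hp)).2 hpw
        obtain ⟨w', c, hwc⟩ := hcop
        let L : Subgroup (EQ t) :=
          { carrier := {y | y.1.e = 1 ∧ (M' : ℤ) ∣ toAdd (y.1.v u σ)}
            one_mem' := ⟨rfl, by simp⟩
            mul_mem' := by
              rintro y z ⟨hy, hy'⟩ ⟨hz, hz'⟩
              refine ⟨by simp [hy, hz], ?_⟩
              have : (y * z).1.v u σ = y.1.v u σ * z.1.v u σ := by
                have h5 : (y * z).1 = y.1 * z.1 := rfl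
                rw [h5, Wr.v_mul_of_fix (by simp [hz])]; rfl
              rw [this, toAdd_mul]
              exact dvd_add hy' hz'
            inv_mem' := by
              rintro y ⟨hy, hy'⟩
              refine ⟨by simp [hy], ?_⟩
              have : (y⁻¹).1.v u σ = (y.1.v u σ)⁻¹ := by
                have h5 : (y⁻¹).1 = y.1⁻¹ := rfl
                rw [h5, Wr.v_inv_of_fix (by simp [hy])]; rfl
              rw [this, toAdd_inv]
              exact (dvd_neg).2 hy' }
        let χ : L →* Multiplicative ℤ := MonoidHom.mk'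
          (fun y => ofAdd (w' * (toAdd (y.1.1.v u σ) / (M' : ℤ)))) (by
            rintro ⟨y, hy, hy'⟩ ⟨z, hz, hz'⟩
            have h4 : (y * z).1.v u σ = y.1.v u σ * z.1.v u σ := by
              have h5 : (y * z).1 = y.1 * z.1 := rfl
              rw [h5, Wr.v_mul_of_fix (by simp [hz])]; rfl
            show ofAdd (w' * (toAdd ((y * z).1.v u σ) / (M' : ℤ))) = _
            rw [h4, toAdd_mul, Int.add_ediv_of_dvd_left hy', mul_add, ofAdd_add])
        refine ⟨L, χ, ?_, ⟨hxe, ⟨w, hw⟩⟩, ?_, ?_⟩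
        · intro y hy
          rw [hmemM] at hy
          refine ⟨hy.1, dvd_trans ?_ (hy.2 u σ)⟩
          rw [hM'']
          exact ⟨p, by ring⟩
        · intro y hy
          rw [hmemM] at hy
          show (p : ℤ) ∣ w' * (toAdd (y.1.v u σ) / (M' : ℤ))
          obtain ⟨d, hd⟩ := hy.2 u σ
          rw [hd, hM'']
          rw [show (p : ℤ) * M' * d = M' * (p * d) by ring, Int.mul_ediv_cancel_left _ hM'0]
          exact ⟨w' * d, by ring⟩
        · show (p : ℤ) ∣ w' * (toAdd (x.1.v u σ) / (M' : ℤ)) - 1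
          rw [hw, Int.mul_ediv_cancel_left _ hM'0]
          exact ⟨-c, by linarith⟩
    · rw [hmemM]
      rintro ⟨-, h⟩
      have h1 := h u₀ σ₀
      have h2 := Int.natAbs_dvd_natAbs.2 h1
      rw [Int.natAbs_natCast] at h2
      have h3 := Nat.le_of_dvd (Int.natAbs_pos.2 hne) h2
      omega
  · exact ⟨(EQ.top t).ker, ⟨inferInstance, Subgroup.finiteIndex_ker _, EQ.lp_top ht⟩, he⟩

end EQ

end TFS
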