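import Mathlib
import Pool.Agent.Lib_helper1.TFS.Wr

/-!
# Perfectness and normal generation in `A ≀₀ E`
-/

set_option autoImplicit false

namespace TFS

open Equiv
open scoped commutatorElement

theorem exists_fresh {Ω : Type*} [Fintype Ω] [DecidableEq Ω] (s : Finset Ω)
    (h : s.card < Fintype.card Ω) : ∃ x, x ∉ s := by
  by_contra hcon
  push Not at hcon
  have : s = Finset.univ := Finset.eq_univ_of_forall hcon
  rw [this, Finset.card_univ] at h
  exact lt_irrefl _ h

/-- The hypotheses on the top group: perfect, acts as the alternating group on at least five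
points, with abelian kernel. -/
structure AltAct {E Ω : Type*} [Group E] [Fintype Ω] [DecidableEq Ω]
    (act : E →* Equiv.Perm Ω) : Prop where
  range_eq : act.range = alternatingGroup Ω
  card_ge : 5 ≤ Fintype.card Ω
  perfect : commutator E = ⊤
  ker_comm : ∀ e e', act e = 1 → act e' = 1 → e * e' = e' * e

namespace AltAct

variable {E Ω A : Type*} [Group E] [Group A] [Fintype Ω] [DecidableEq Ω]
  {act : E →* Equiv.Perm Ω}

/-- double transpositions are in the image. -/
theorem exists_double (h : AltAct act) {a b c d : Ω} (hab : a ≠ b) (hcd : c ≠ d) :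
    ∃ e : E, act e = swap a b * swap c d := by
  have : swap a b * swap c d ∈ act.range := by
    rw [h.range_eq, Equiv.Perm.mem_alternatingGroup]
    simp [hab, hcd]
  exact this

open Wr

/-- elements supported at one point. -/
def single (act : E →* Equiv.Perm Ω) (ω : Ω) : A →* Wr A act :=
  (Wr.base act).comp (MonoidHom.mulSingle (fun _ : Ω => A) ω)

@[simp] theorem single_e (ω : Ω) (a : A) : (single act ω a).e = 1 := rfl

theorem single_v (ω ω' : Ω) (a : A) : (single act ω a).v ω' = if ω' = ω then a else 1 := by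
  show (Pi.mulSingle ω a : Ω → A) ω' = _
  rw [Pi.mulSingle_apply]

@[simp] theorem single_v_self (ω : Ω) (a : A) : (single act ω a).v ω = a := by
  rw [single_v, if_pos rfl]

theorem single_v_ne {ω ω' : Ω} (h : ω' ≠ ω) (a : A) : (single act ω a).v ω' = 1 := by
  rw [single_v, if_neg h]

/-- the element `a` at `ω` and `a⁻¹` at `ω'`. -/
def dd (act : E →* Equiv.Perm Ω) (a : A) (ω ω' : Ω) : Wr A act :=
  single act ω a * single act ω' a⁻¹

@[simp] theorem dd_e (a : A) (ω ω' : Ω) : (dd act a ω ω').e = 1 := by simp [dd]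

theorem dd_v {ω ω' : Ω} (h : ω ≠ ω') (a : A) (x : Ω) :
    (dd act a ω ω').v x = if x = ω then a else if x = ω' then a⁻¹ else 1 := by
  rw [dd, Wr.mul_v, single_v, single_v]
  simp only [single_e, map_one, Perm.coe_one, id_eq]
  by_cases h1 : x = ω
  · subst h1; simp [h]
  · simp [h1]

theorem dd_mem (a : A) (ω ω' : Ω) : dd act a ω ω' ∈ zero A act := by
  show sumHom act _ = 1
  have h1 : ∀ (ω : Ω) (a : A), sumHom act (single act ω a) = Abelianization.of a := by
    intro ω a
    show ∏ x, Abelianization.of ((single act ω a).v x) = _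
    rw [Finset.prod_eq_single ω]
    · simp
    · intro b _ hb
      rw [single_v_ne hb, map_one]
    · simp
  rw [dd, map_mul, h1, h1, ← map_mul, mul_inv_cancel, map_one]

/-- the commutator of two subgroups, seen in the ambient group. -/
theorem comm_mem {W : Type*} [Group W] {Z : Subgroup W} {x y : W} (hx : x ∈ Z) (hy : y ∈ Z) :
    ⁅x, y⁆ ∈ (⁅Z, Z⁆ : Subgroup W) := Subgroup.commutator_mem_commutator hx hy

theorem commutator_single_mem (h : AltAct act) (a b : A) (ω : Ω) :
    single act ω ⁅a, b⁆ ∈ (⁅zero A act, zero A act⁆ : Subgroup (Wr A act)) := by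
  obtain ⟨ω', hω'⟩ := exists_fresh {ω} (by have := h.card_ge; simp; omega)
  obtain ⟨ω'', hω''⟩ := exists_fresh {ω, ω'} (by
    have := h.card_ge
    have h2 := Finset.card_le_two (a := ω) (b := ω')
    omega)
  simp only [Finset.mem_singleton] at hω'
  simp only [Finset.mem_insert, Finset.mem_singleton, not_or] at hω''
  have h1 := comm_mem (dd_mem (act := act) a ω ω') (dd_mem b ω ω'')
  convert h1 using 1
  refine Wr.ext' (fun x => ?_) (by simp [commutatorElement_def])
  rw [single_v]
  simp only [commutatorElement_def, Wr.mul_v, Wr.inv_v, Wr.mul_e, Wr.inv_e, dd_e, mul_one, inv_one,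
    map_one, Perm.coe_one, id_eq]
  rw [dd_v (Ne.symm hω'), dd_v (Ne.symm hω''.1)]
  by_cases hx : x = ω
  · simp [hx]
  · by_cases hx' : x = ω'
    · subst hx'
      simp [hω', Ne.symm hω''.2]
    · simp [hx, hx']

theorem dd_mem_commutator (h : AltAct act) (a : A) {ω ω' : Ω} (hne : ω ≠ ω') :
    dd act a ω ω' ∈ (⁅zero A act, zero A act⁆ : Subgroup (Wr A act)) := by
  obtain ⟨ω'', hω''⟩ := exists_fresh {ω, ω'} (by
    have := h.card_ge
    have h2 := Finset.card_le_two (a := ω) (b := ω')
    omega)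
  obtain ⟨z, hz⟩ := exists_fresh {ω, ω', ω''} (by
    have := h.card_ge
    have h2 := Finset.card_le_three (a := ω) (b := ω') (c := ω'')
    omega)
  obtain ⟨z', hz'⟩ := exists_fresh {ω, ω', ω'', z} (by
    have := h.card_ge
    have h2 := Finset.card_le_four (a := ω) (b := ω') (c := ω'') (d := z)
    omega)
  simp only [Finset.mem_insert, Finset.mem_singleton, not_or] at hω'' hz hz'
  obtain ⟨e, he⟩ := h.exists_double (a := ω) (b := ω') (c := z) (d := z') hne
    (Ne.symm hz'.2.2.2)
  have e1 : act e ω = ω' := by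
    rw [he, Perm.mul_apply, swap_apply_of_ne_of_ne (Ne.symm hz.1) (Ne.symm hz'.1), swap_apply_left]
  have e2 : act e ω'' = ω'' := by
    rw [he, Perm.mul_apply, swap_apply_of_ne_of_ne (Ne.symm hz.2.2) (Ne.symm hz'.2.2.1),
      swap_apply_of_ne_of_ne hω''.1 hω''.2]
  have h1 := comm_mem (dd_mem (act := act) a ω ω'') (inl_mem_zero (A := A) (act := act) e)
  convert h1 using 1
  have e3 : (act e)⁻¹ ω' = ω := by rw [Perm.inv_eq_iff_eq, e1]
  have e4 : (act e)⁻¹ ω'' = ω'' := by rw [Perm.inv_eq_iff_eq, e2]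
  refine Wr.ext' (fun x => ?_) (by simp [commutatorElement_def])
  simp only [commutatorElement_def, Wr.mul_v, Wr.inv_v, Wr.mul_e, Wr.inv_e, dd_e, mul_one, inv_one,
    map_one, Perm.coe_one, id_eq, inl_v, inl_e, inv_inv, one_mul, map_inv]
  have h8 : (act e) ((act e)⁻¹ x) = x := by simp
  rw [h8, dd_v hne, dd_v (Ne.symm hω''.1), dd_v (Ne.symm hω''.1)]
  by_cases hx : x = ω
  · subst hx
    have h5 : (act e)⁻¹ x ≠ x := by
      intro h6
      rw [Perm.inv_eq_iff_eq, e1] at h6
      exact hne h6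
    have h7 : (act e)⁻¹ x ≠ ω'' := by
      intro h6
      rw [Perm.inv_eq_iff_eq, e2] at h6
      exact hω''.1 h6.symm
    rw [if_pos rfl, if_pos rfl, if_neg h5, if_neg h7]; simp
  · by_cases hx' : x = ω'
    · subst hx'
      rw [e3, if_neg hx, if_pos rfl, if_neg hx, if_neg (Ne.symm hω''.2), if_pos rfl]; simp
    · by_cases hx'' : x = ω''
      · subst hx''
        rw [e4, if_neg hx, if_neg hx', if_neg hx, if_pos rfl]; simp
      · have h5 : (act e)⁻¹ x ≠ ω := by
          intro h6
          rw [Perm.inv_eq_iff_eq, e1] at h6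
          exact hx' h6
        have h7 : (act e)⁻¹ x ≠ ω'' := by
          intro h6
          rw [Perm.inv_eq_iff_eq, e2] at h6
          exact hx'' h6
        rw [if_neg hx, if_neg hx', if_neg hx, if_neg hx'', if_neg h5, if_neg h7]; simp

theorem base_mem_commutator (h : AltAct act) (f : Ω → A) (hf : Wr.base act f ∈ zero A act) :
    Wr.base act f ∈ (⁅zero A act, zero A act⁆ : Subgroup (Wr A act)) := by
  obtain ⟨ω₀, -⟩ := exists_fresh (∅ : Finset Ω) (by have := h.card_ge; simp; omega)
  set D : Subgroup (Wr A act) := ⁅zero A act, zero A act⁆ with hD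
  have hDz : D ≤ zero A act := Subgroup.commutator_le_self _
  have key : ∀ S : Finset Ω, ω₀ ∉ S → ∃ f' : Ω → A, (∀ ω ∈ S, f' ω = 1) ∧
      (∀ ω, ω ∉ S → ω ≠ ω₀ → f' ω = f ω) ∧ Wr.base act f * (Wr.base act f')⁻¹ ∈ D := by
    intro S
    induction S using Finset.induction_on with
    | empty => intro _; exact ⟨f, by simp, by simp, by simp⟩
    | insert a S ha ih =>
      intro hS
      rw [Finset.mem_insert, not_or] at hS
      obtain ⟨f', h1, h2, h3⟩ := ih hS.2
      refine ⟨fun ω => f' ω * (dd act (f' a)⁻¹ a ω₀).v ω, ?_, ?_, ?_⟩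
      · intro ω hω
        show f' ω * (dd act (f' a)⁻¹ a ω₀).v ω = 1
        rw [dd_v (Ne.symm hS.1)]
        rw [Finset.mem_insert] at hω
        by_cases hωa : ω = a
        · simp [hωa]
        · have hωS : ω ∈ S := by tauto
          have : ω ≠ ω₀ := by rintro rfl; exact hS.2 hωS
          simp [hωa, this, h1 ω hωS]
      · intro ω hω hω0
        rw [Finset.mem_insert, not_or] at hω
        show f' ω * (dd act (f' a)⁻¹ a ω₀).v ω = f ω
        rw [dd_v (Ne.symm hS.1), if_neg hω.1, if_neg hω0, mul_one]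
        exact h2 ω hω.2 hω0
      · have h4 : Wr.base act (fun ω => f' ω * (dd act (f' a)⁻¹ a ω₀).v ω)
            = Wr.base act f' * dd act (f' a)⁻¹ a ω₀ :=
          Wr.ext' (fun ω => by simp) (by simp)
        rw [h4, mul_inv_rev]
        have h5 := h.dd_mem_commutator (f' a)⁻¹ (Ne.symm hS.1)
        have h6 : Wr.base act f * ((dd act (f' a)⁻¹ a ω₀)⁻¹ * (Wr.base act f')⁻¹)
            = (Wr.base act f * (dd act (f' a)⁻¹ a ω₀)⁻¹ * (Wr.base act f)⁻¹)
              * (Wr.base act f * (Wr.base act f')⁻¹) := by group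
        rw [h6]
        refine mul_mem ?_ h3
        -- normality of `D` in `zero`
        have h7 : (Wr.base act f * (dd act (f' a)⁻¹ a ω₀)⁻¹ * (Wr.base act f)⁻¹)
            = ⁅Wr.base act f, (dd act (f' a)⁻¹ a ω₀)⁻¹⁆ * (dd act (f' a)⁻¹ a ω₀)⁻¹ := by
          rw [commutatorElement_def]; group
        rw [h7]
        exact mul_mem (comm_mem hf (inv_mem (dd_mem _ _ _))) (inv_mem h5)
  obtain ⟨f', h1, -, h3⟩ := key (Finset.univ.erase ω₀) (by simp)
  have h4 : Wr.base act f' = single act ω₀ (f' ω₀) := by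
    refine Wr.ext' (fun ω => ?_) rfl
    rw [single_v, Wr.base_v]
    split_ifs with h5
    · rw [h5]
    · exact h1 ω (by simp [h5])
  have h5 : Wr.base act f' ∈ zero A act := by
    have := mul_mem (inv_mem (hDz h3)) hf
    rw [mul_inv_rev, inv_inv, mul_assoc, inv_mul_cancel, mul_one] at this
    exact this
  have h6 : f' ω₀ ∈ commutator A := by
    rw [h4] at h5
    have h7 : sumHom act (single act ω₀ (f' ω₀)) = 1 := h5
    have h8 : sumHom act (single act ω₀ (f' ω₀)) = Abelianization.of (f' ω₀) := by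
      show ∏ x, Abelianization.of ((single act ω₀ (f' ω₀)).v x) = _
      rw [Finset.prod_eq_single ω₀]
      · simp
      · intro b _ hb
        rw [single_v_ne hb, map_one]
      · simp
    rw [h8] at h7
    rw [← Abelianization.ker_of]
    exact h7
  have h7 : ∀ c ∈ commutator A, single act ω₀ c ∈ D := by
    intro c hc
    rw [commutator_eq_closure] at hc
    have h9 : Subgroup.closure (commutatorSet A) ≤ D.comap (single act ω₀) := by
      rw [Subgroup.closure_le]
      rintro _ ⟨a, b, rfl⟩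
      exact h.commutator_single_mem a b ω₀
    exact h9 hc
  have h8 := h7 _ h6
  rw [← h4] at h8
  have := mul_mem h3 h8
  rwa [inv_mul_cancel_right] at this

/-- `A ≀₀ E` is perfect. -/
theorem commutator_zero (h : AltAct act) :
    (⁅zero A act, zero A act⁆ : Subgroup (Wr A act)) = zero A act := by
  refine le_antisymm (Subgroup.commutator_le_self _) ?_
  intro x hx
  have h1 : x = inl act x.e * Wr.base act x.v := Wr.ext' (fun ω => by simp) (by simp)
  have h2 : Wr.base act x.v ∈ zero A act := by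
    have := mul_mem (inv_mem (inl_mem_zero (A := A) (act := act) x.e)) hx
    rw [h1] at this
    simpa using this
  rw [h1]
  refine mul_mem ?_ (h.base_mem_commutator _ h2)
  have h3 : commutator E ≤ (⁅zero A act, zero A act⁆ : Subgroup (Wr A act)).comap (inl act) := by
    rw [commutator_eq_closure, Subgroup.closure_le]
    rintro _ ⟨a, b, rfl⟩
    have h4 : (inl act : E →* Wr A act) ⁅a, b⁆
        ∈ (⁅zero A act, zero A act⁆ : Subgroup (Wr A act)) := by
      rw [map_commutatorElement]
      exact comm_mem (inl_mem_zero (A := A) (act := act) _) (inl_mem_zero (A := A) (act := act) _)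
    exact h4
  exact h3 (by rw [h.perfect]; exact Subgroup.mem_top _)

theorem perfect_zero (h : AltAct act) : commutator (zero A act) = ⊤ := by
  rw [eq_top_iff]
  intro x _
  have h1 : (x : Wr A act) ∈ (⁅zero A act, zero A act⁆ : Subgroup (Wr A act)) := by
    rw [h.commutator_zero]; exact x.2
  rw [Subgroup.commutator_def] at h1
  have h2 : Subgroup.closure {g : Wr A act | ∃ g₁ ∈ zero A act, ∃ g₂ ∈ zero A act, ⁅g₁, g₂⁆ = g}
      ≤ (commutator (zero A act)).map (zero A act).subtype := by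
    rw [Subgroup.closure_le]
    rintro _ ⟨a, ha, b, hb, rfl⟩
    exact ⟨⁅⟨a, ha⟩, ⟨b, hb⟩⁆, Subgroup.commutator_mem_commutator (Subgroup.mem_top _)
      (Subgroup.mem_top _), rfl⟩
  obtain ⟨y, hy, hyx⟩ := h2 h1
  have : y = x := Subtype.ext hyx
  rw [← this]; exact hy

/-- an element of `A ≀₀ E` acting nontrivially normally generates. -/
theorem normalClosure_eq_top (h : AltAct act) (x : zero A act) (hx : act x.1.e ≠ 1) :
    Subgroup.normalClosure {x} = (⊤ : Subgroup (zero A act)) := by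
  set J : Subgroup (zero A act) := Subgroup.normalClosure {x} with hJ
  have hJn : J.Normal := Subgroup.normalClosure_normal
  have hxJ : x ∈ J := Subgroup.subset_normalClosure rfl
  -- projection to the alternating group
  let p : zero A act →* alternatingGroup Ω :=
    ((Wr.actW act).comp (zero A act).subtype).codRestrict (alternatingGroup Ω) (by
      intro y
      rw [← h.range_eq]
      exact ⟨y.1.e, rfl⟩)
  have hp : ∀ y : zero A act, (p y : Equiv.Perm Ω) = act y.1.e := fun y => rfl
  have hpsurj : Function.Surjective p := by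
    intro τ
    have hτ : (τ : Equiv.Perm Ω) ∈ act.range := by rw [h.range_eq]; exact τ.2
    obtain ⟨e, he⟩ := hτ
    refine ⟨⟨inl act e, inl_mem_zero e⟩, ?_⟩
    exact Subtype.ext he
  have : IsSimpleGroup (alternatingGroup Ω) := by
    apply alternatingGroup.isSimpleGroup
    rw [Nat.card_eq_fintype_card]
    exact h.card_ge
  have hmap : J.map p = ⊤ := by
    have h1 : (J.map p).Normal := hJn.map p hpsurj
    rcases h1.eq_bot_or_eq_top with h2 | h2
    · exfalso
      have h3 : p x ∈ J.map p := ⟨x, hxJ, rfl⟩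
      rw [h2, Subgroup.mem_bot] at h3
      apply hx
      rw [← hp, h3]; rfl
    · exact h2
  have hlift : ∀ τ : Equiv.Perm Ω, τ ∈ alternatingGroup Ω → ∃ j ∈ J, act j.1.e = τ := by
    intro τ hτ
    have : (⟨τ, hτ⟩ : alternatingGroup Ω) ∈ J.map p := by rw [hmap]; exact Subgroup.mem_top _
    obtain ⟨j, hj, hj'⟩ := this
    exact ⟨j, hj, congrArg Subtype.val hj'⟩
  -- commutators at a point
  have hcomm : ∀ (a b : A) (ω : Ω) (hm : single act ω ⁅a, b⁆ ∈ zero A act),
      (⟨single act ω ⁅a, b⁆, hm⟩ : zero A act) ∈ J := by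
    intro a b ω hm
    obtain ⟨ω', hω'⟩ := exists_fresh {ω} (by have := h.card_ge; simp; omega)
    obtain ⟨ω'', hω''⟩ := exists_fresh {ω, ω'} (by
      have := h.card_ge
      have h2 := Finset.card_le_two (a := ω) (b := ω')
      omega)
    obtain ⟨z, hz⟩ := exists_fresh {ω, ω', ω''} (by
      have := h.card_ge
      have h2 := Finset.card_le_three (a := ω) (b := ω') (c := ω'')
      omega)
    obtain ⟨z', hz'⟩ := exists_fresh {ω, ω', ω'', z} (by
      have := h.card_ge
      have h2 := Finset.card_le_four (a := ω) (b := ω') (c := ω'') (d := z)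
      omega)
    simp only [Finset.mem_singleton] at hω'
    simp only [Finset.mem_insert, Finset.mem_singleton, not_or] at hω'' hz hz'
    obtain ⟨j, hj, hje⟩ := hlift (swap ω z * swap ω' z') (by
      rw [Equiv.Perm.mem_alternatingGroup]
      simp [Ne.symm hz.1, Ne.symm hz'.2.1])
    let s : zero A act := ⟨dd act a⁻¹ ω ω', dd_mem _ _ _⟩
    let t : zero A act := ⟨dd act b ω ω'', dd_mem _ _ _⟩
    have h1 : j * s * j⁻¹ * s⁻¹ ∈ J := by
      have : s * j⁻¹ * s⁻¹ ∈ J := hJn.conj_mem _ (inv_mem hj) s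
      have h2 := mul_mem hj this
      convert h2 using 1
      group
    have h2 : (j * s * j⁻¹ * s⁻¹) * t * (j * s * j⁻¹ * s⁻¹)⁻¹ * t⁻¹ ∈ J := by
      have : t * (j * s * j⁻¹ * s⁻¹)⁻¹ * t⁻¹ ∈ J := hJn.conj_mem _ (inv_mem h1) t
      have h3 := mul_mem h1 this
      convert h3 using 1
      group
    convert h2 using 1
    ext1
    -- the permutation part of `j`
    set τ := act j.1.e with hτ
    have t1 : τ⁻¹ z = ω := by
      rw [Perm.inv_eq_iff_eq, hje, Perm.mul_apply,
        swap_apply_of_ne_of_ne (Ne.symm hω') (Ne.symm hz'.1), swap_apply_left]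
    have t2 : τ⁻¹ z' = ω' := by
      rw [Perm.inv_eq_iff_eq, hje, Perm.mul_apply, swap_apply_left,
        swap_apply_of_ne_of_ne hz'.1 hz'.2.2.2]
    have hc1 : ∀ x, (j * s * j⁻¹ * s⁻¹ : zero A act).1.v x
        = j.1.v (τ⁻¹ x) * s.1.v (τ⁻¹ x) * (j.1.v (τ⁻¹ x))⁻¹ * (s.1.v x)⁻¹ := by
      intro x
      show (j.1 * s.1 * j.1⁻¹ * s.1⁻¹).v x = _
      have hse : s.1.e = 1 := dd_e _ _ _
      simp only [Wr.mul_v, Wr.inv_v, Wr.mul_e, Wr.inv_e, hse, inv_one, map_one, Perm.coe_one,
        id_eq, map_inv, ← hτ]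
    have hc1e : (j * s * j⁻¹ * s⁻¹ : zero A act).1.e = 1 := by
      show (j.1 * s.1 * j.1⁻¹ * s.1⁻¹).e = _
      have hse : s.1.e = 1 := dd_e _ _ _
      simp [hse]
    set c1 : zero A act := j * s * j⁻¹ * s⁻¹ with hc1def
    have hte : t.1.e = 1 := dd_e _ _ _
    refine Wr.ext' (fun x => ?_) ?_
    · show _ = (c1.1 * t.1 * c1.1⁻¹ * t.1⁻¹).v x
      rw [single_v]
      simp only [Wr.mul_v, Wr.inv_v, Wr.mul_e, Wr.inv_e, hte, hc1e, mul_one, inv_one,
        map_one, Perm.coe_one, id_eq]
      have ht : t.1.v x = if x = ω then b else if x = ω'' then b⁻¹ else 1 :=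
        dd_v (Ne.symm hω''.1) b x
      have hs : ∀ x, s.1.v x = if x = ω then a⁻¹ else if x = ω' then a⁻¹⁻¹ else 1 :=
        dd_v (Ne.symm hω') a⁻¹
      have hτ1 : ∀ y, y ≠ z → τ⁻¹ y ≠ ω := by
        intro y hy h6
        apply hy
        rw [← t1] at h6
        exact τ⁻¹.injective h6
      have hτ2 : ∀ y, y ≠ z' → τ⁻¹ y ≠ ω' := by
        intro y hy h6
        apply hy
        rw [← t2] at h6
        exact τ⁻¹.injective h6
      have hc1v : ∀ y, y ≠ z → y ≠ z' → c1.1.v y = (s.1.v y)⁻¹ := by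
        intro y hy hy'
        rw [hc1, hs (τ⁻¹ y), if_neg (hτ1 y hy), if_neg (hτ2 y hy')]
        simp
      rw [ht]
      by_cases hx1 : x = ω
      · rw [hc1v x (by rw [hx1]; exact Ne.symm hz.1) (by rw [hx1]; exact Ne.symm hz'.1), hs]
        simp [hx1, commutatorElement_def]
      · by_cases hx2 : x = ω''
        · rw [hc1v x (by rw [hx2]; exact Ne.symm hz.2.2) (by rw [hx2]; exact Ne.symm hz'.2.2.1), hs]
          subst hx2
          simp [hx1, hω''.2]
        · simp [hx1, hx2]
    · show (1 : E) = (c1.1 * t.1 * c1.1⁻¹ * t.1⁻¹).e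
      simp [hte, hc1e]
  -- base functions of commutators
  have hbase : ∀ (f g : Ω → A) (hm : Wr.base act (fun ω => ⁅f ω, g ω⁆) ∈ zero A act),
      (⟨Wr.base act (fun ω => ⁅f ω, g ω⁆), hm⟩ : zero A act) ∈ J := by
    intro f g hm
    have hz : ∀ ω, single act ω ⁅f ω, g ω⁆ ∈ zero A act := by
      intro ω
      rw [← h.commutator_zero]
      exact h.commutator_single_mem _ _ _
    have key : ∀ S : Finset Ω, ∃ hm : Wr.base act (fun ω => if ω ∈ S then ⁅f ω, g ω⁆ else 1)
        ∈ zero A act, (⟨_, hm⟩ : zero A act) ∈ J := by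
      intro S
      induction S using Finset.induction_on with
      | empty =>
        have : Wr.base act (fun ω => if ω ∈ (∅ : Finset Ω) then ⁅f ω, g ω⁆ else 1) = 1 :=
          Wr.ext' (fun ω => by simp) rfl
        have hm0 : Wr.base act (fun ω => if ω ∈ (∅ : Finset Ω) then ⁅f ω, g ω⁆ else 1)
            ∈ zero A act := by rw [this]; exact one_mem _
        refine ⟨hm0, ?_⟩
        have h2 : (⟨_, hm0⟩ : zero A act) = 1 := Subtype.ext this
        rw [h2]; exact one_mem _
      | insert a S ha ih =>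
        obtain ⟨hm', ih⟩ := ih
        have h3 : Wr.base act (fun ω => if ω ∈ insert a S then ⁅f ω, g ω⁆ else 1)
            = Wr.base act (fun ω => if ω ∈ S then ⁅f ω, g ω⁆ else 1) * single act a ⁅f a, g a⁆ := by
          refine Wr.ext' (fun ω => ?_) (by rw [Wr.mul_e, single_e, Wr.base_e, Wr.base_e, one_mul])
          simp only [Wr.base_v, Wr.mul_v, single_e, map_one, Perm.coe_one, id_eq]
          rw [single_v]
          by_cases hω : ω = a
          · subst hω; simp [ha]
          · simp [hω]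
        have hm0 : Wr.base act (fun ω => if ω ∈ insert a S then ⁅f ω, g ω⁆ else 1)
            ∈ zero A act := by rw [h3]; exact mul_mem hm' (hz a)
        refine ⟨hm0, ?_⟩
        have h4 : (⟨_, hm0⟩ : zero A act)
            = ⟨_, hm'⟩ * ⟨_, hz a⟩ := Subtype.ext h3
        rw [h4]
        exact mul_mem ih (hcomm _ _ _ _)
    obtain ⟨hm', h2⟩ := key Finset.univ
    convert h2 using 1
    ext1
    refine Wr.ext' (fun ω => by simp) rfl
  -- `J` contains all commutators
  rw [eq_top_iff, ← h.perfect_zero, commutator_eq_closure, Subgroup.closure_le]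
  rintro _ ⟨x₁, x₂, rfl⟩
  have hdec : ∀ y : zero A act, ∃ j ∈ J, act (j⁻¹ * y).1.e = 1 := by
    intro y
    obtain ⟨j, hj, hj'⟩ := hlift (act y.1.e) (by rw [← h.range_eq]; exact ⟨_, rfl⟩)
    refine ⟨j, hj, ?_⟩
    show act (j.1.e⁻¹ * y.1.e) = 1
    rw [map_mul, map_inv, hj']; simp
  obtain ⟨j₁, hj₁, h1⟩ := hdec x₁
  obtain ⟨j₂, hj₂, h2⟩ := hdec x₂
  set y₁ := j₁⁻¹ * x₁ with hy₁
  set y₂ := j₂⁻¹ * x₂ with hy₂
  have hyy : ⁅y₁, y₂⁆ ∈ J := by
    have hm : Wr.base act (fun ω => ⁅y₁.1.v ω, y₂.1.v ω⁆) ∈ zero A act := by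
      show sumHom act _ = 1
      show ∏ ω, Abelianization.of ⁅y₁.1.v ω, y₂.1.v ω⁆ = 1
      apply Finset.prod_eq_one
      intro ω _
      rw [map_commutatorElement, commutatorElement_eq_one_iff_mul_comm, mul_comm]
    have h3 := hbase y₁.1.v y₂.1.v hm
    convert h3 using 1
    ext1
    refine Wr.ext' (fun ω => ?_) ?_
    · show (y₁.1 * y₂.1 * y₁.1⁻¹ * y₂.1⁻¹).v ω = ⁅y₁.1.v ω, y₂.1.v ω⁆
      simp only [Wr.mul_v, Wr.inv_v, Wr.mul_e, Wr.inv_e, map_mul, map_inv, h1, h2, mul_one, inv_one,
        Perm.coe_one, id_eq, commutatorElement_def]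
    · show y₁.1.e * y₂.1.e * y₁.1.e⁻¹ * y₂.1.e⁻¹ = 1
      rw [h.ker_comm _ _ h1 h2]; group
  -- pass to the quotient
  have hq1 : (x₁ : zero A act ⧸ J) = (y₁ : zero A act ⧸ J) := by
    rw [hy₁, QuotientGroup.mk_mul, (QuotientGroup.eq_one_iff _).2 (inv_mem hj₁), one_mul]
  have hq2 : (x₂ : zero A act ⧸ J) = (y₂ : zero A act ⧸ J) := by
    rw [hy₂, QuotientGroup.mk_mul, (QuotientGroup.eq_one_iff _).2 (inv_mem hj₂), one_mul]
  show ⁅x₁, x₂⁆ ∈ J
  rw [← QuotientGroup.eq_one_iff] at hyy ⊢
  rw [commutatorElement_def] at hyy ⊢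
  simp only [QuotientGroup.mk_mul, QuotientGroup.mk_inv] at hyy ⊢
  rw [hq1, hq2]
  exact hyy

end AltAct

end TFS
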