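import Mathlib
import Pool.Agent.Lib_helper1.TFS.Cover
import Pool.Agent.Lib_helper1.TFS.Simple

/-!
# Existence of perfect torsion-free covers of alternating groups
-/

set_option autoImplicit false

namespace TFS

open scoped commutatorElement

theorem commutator_coe_eq_top {P : Type*} [Group P] (D : Subgroup P) (h : ⁅D, D⁆ = D) :
    commutator D = ⊤ := by
  rw [eq_top_iff]
  intro x _
  have h1 : (x : P) ∈ ⁅D, D⁆ := by rw [h]; exact x.2
  rw [Subgroup.commutator_def] at h1
  have h2 : Subgroup.closure {g : P | ∃ g₁ ∈ D, ∃ g₂ ∈ D, ⁅g₁, g₂⁆ = g}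
      ≤ (commutator D).map D.subtype := by
    rw [Subgroup.closure_le]
    rintro _ ⟨a, ha, b, hb, rfl⟩
    exact ⟨⁅⟨a, ha⟩, ⟨b, hb⟩⁆, Subgroup.commutator_mem_commutator (Subgroup.mem_top _)
      (Subgroup.mem_top _), rfl⟩
  obtain ⟨y, hy, hyx⟩ := h2 h1
  have : y = x := Subtype.ext hyx
  rw [← this]; exact hy

/-- the commutator subgroup of an (abelian by perfect) group is perfect. -/
theorem perfect_commutator {P Q : Type*} [Group P] [Group Q] (f : P →* Q)
    (hf : Function.Surjective f) (hQ : commutator Q = ⊤)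
    (hk : ∀ x y, f x = 1 → f y = 1 → x * y = y * x) :
    ⁅commutator P, commutator P⁆ = commutator P ∧ (commutator P).map f = ⊤ := by
  have h0 : (commutator P).map f = ⊤ := by
    rw [commutator_def, Subgroup.map_commutator, Subgroup.map_top_of_surjective f hf,
      ← commutator_def, hQ]
  refine ⟨le_antisymm (Subgroup.commutator_le_self _) ?_, h0⟩
  set D := commutator P with hD
  have h1 : (⁅D, D⁆ : Subgroup P).map f = ⊤ := by
    rw [Subgroup.map_commutator, h0, ← commutator_def, hQ]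
  have h2 : ∀ p : P, ∃ d ∈ (⁅D, D⁆ : Subgroup P), f (d⁻¹ * p) = 1 := by
    intro p
    have : f p ∈ (⁅D, D⁆ : Subgroup P).map f := by rw [h1]; exact Subgroup.mem_top _
    obtain ⟨d, hd, hdp⟩ := this
    exact ⟨d, hd, by rw [map_mul, map_inv, hdp, inv_mul_cancel]⟩
  have hDcl : D = Subgroup.closure (commutatorSet P) := commutator_eq_closure P
  refine hDcl.le.trans ?_
  rw [Subgroup.closure_le]
  rintro _ ⟨p, p', rfl⟩
  obtain ⟨d, hd, h3⟩ := h2 p
  obtain ⟨d', hd', h4⟩ := h2 p'
  have hn : (⁅D, D⁆ : Subgroup P).Normal := inferInstance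
  have e1 : (p : P ⧸ (⁅D, D⁆ : Subgroup P)) = ((d⁻¹ * p : P) : P ⧸ (⁅D, D⁆ : Subgroup P)) := by
    rw [QuotientGroup.mk_mul, (QuotientGroup.eq_one_iff _).2 (inv_mem hd), one_mul]
  have e2 : (p' : P ⧸ (⁅D, D⁆ : Subgroup P)) = ((d'⁻¹ * p' : P) : P ⧸ (⁅D, D⁆ : Subgroup P)) := by
    rw [QuotientGroup.mk_mul, (QuotientGroup.eq_one_iff _).2 (inv_mem hd'), one_mul]
  show ⁅p, p'⁆ ∈ (⁅D, D⁆ : Subgroup P)
  rw [← QuotientGroup.eq_one_iff, commutatorElement_def]
  simp only [QuotientGroup.mk_mul, QuotientGroup.mk_inv]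
  rw [e1, e2, ← QuotientGroup.mk_mul, hk _ _ h3 h4, QuotientGroup.mk_mul]
  group

theorem LP.of_eq {R : Type*} [Group R] {K K' : Subgroup R} (h : LP K) (e : K = K') : LP K' := e ▸ h

theorem exists_cover {Ω : Type} [Fintype Ω] [DecidableEq Ω] (h5 : 5 ≤ Fintype.card Ω)
    {G : Type} [Group G] (hG : commutator G = ⊤) (ρ : G →* Equiv.Perm Ω) (hρ : LP ρ.ker) :
    ∃ (E : Type) (_ : Group E) (act : E →* Equiv.Perm Ω) (e : G →* E), AltAct act ∧
      (∀ g, act (e g) = ρ g) ∧ (∀ x : E, x ≠ 1 → ¬ IsOfFinOrder x) ∧ RFL E ∧ LP act.ker ∧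
      Countable E := by
  classical
  have hsign : ∀ g, ρ g ∈ alternatingGroup Ω := by
    intro g
    rw [Equiv.Perm.mem_alternatingGroup]
    have h1 : commutator G ≤ (Equiv.Perm.sign.comp ρ).ker := Abelianization.commutator_subset_ker _
    rw [hG] at h1
    exact h1 (Subgroup.mem_top g)
  let ρ' : G →* alternatingGroup Ω := ρ.codRestrict _ hsign
  have hker : ρ.ker = ρ'.ker := by
    ext g
    rw [MonoidHom.mem_ker, MonoidHom.mem_ker]
    constructor
    · intro h; exact Subtype.ext h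
    · intro h; exact congrArg Subtype.val h
  have hQ : commutator (alternatingGroup Ω) = ⊤ :=
    commutator_alternatingGroup_eq_top (by rwa [Nat.card_eq_fintype_card])
  have key := fun σ : PO (alternatingGroup Ω) =>
    exists_liftData ρ' (hρ.of_eq hker) σ.1 σ.2
  choose t a h1 h2 h3 h4 using key
  let P := EQ t
  let ℓ : G →* EQ t := EQ.lift ρ' a h2 h3 h4
  have hperf := perfect_commutator (EQ.top t) (EQ.top_surjective h1) hQ EQ.ker_comm
  have hℓ : ∀ g, ℓ g ∈ commutator (EQ t) := by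
    intro g
    have h5 : ℓ g ∈ (commutator G).map ℓ := ⟨g, by rw [hG]; exact Subgroup.mem_top g, rfl⟩
    rw [commutator_def, Subgroup.map_commutator] at h5
    rw [commutator_def]
    exact Subgroup.commutator_mono le_top le_top h5
  refine ⟨commutator (EQ t), inferInstance,
    (alternatingGroup Ω).subtype.comp ((EQ.top t).comp (commutator (EQ t)).subtype),
    ℓ.codRestrict _ hℓ, ?_, ?_, ?_, ?_, ?_, ?_⟩
  · refine ⟨?_, h5, commutator_coe_eq_top _ hperf.1, ?_⟩
    · ext τ
      constructor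
      · rintro ⟨x, rfl⟩
        exact SetLike.coe_mem _
      · intro hτ
        have : (⟨τ, hτ⟩ : alternatingGroup Ω) ∈ (commutator (EQ t)).map (EQ.top t) := by
          rw [hperf.2]; exact Subgroup.mem_top _
        obtain ⟨x, hx, hx'⟩ := this
        exact ⟨⟨x, hx⟩, congrArg Subtype.val hx'⟩
    · intro x y hx hy
      ext1
      exact EQ.ker_comm x.1 y.1 (Subtype.ext hx) (Subtype.ext hy)
  · intro g
    rfl
  · intro x hx hfin
    refine EQ.torsionFree h1 x.1 (fun h => hx (Subtype.ext h)) ?_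
    exact (commutator (EQ t)).subtype.isOfFinOrder hfin
  · exact (EQ.rfl' h1).of_injective (commutator (EQ t)).subtype (Subgroup.subtype_injective _)
  · refine ((EQ.lp_top h1).comap (commutator (EQ t)).subtype).of_eq ?_
    ext x
    rw [Subgroup.mem_comap, MonoidHom.mem_ker, MonoidHom.mem_ker]
    constructor
    · intro h; exact congrArg Subtype.val h
    · intro h; exact Subtype.ext h
  · have h6 : Function.Injective (fun x : commutator (EQ t) => (x.1.1.v, x.1.1.e)) := by
      intro x y h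
      simp only [Prod.mk.injEq] at h
      ext1; ext1
      exact Wr.ext h.1 h.2
    exact h6.countable

end TFS
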