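import Mathlib
import Pool.Agent.Lib_helper1.TFS.LP

/-!
# Facts on free groups
-/

set_option autoImplicit false

namespace TFS

open Multiplicative (toAdd ofAdd)

universe u

/-- every normal subgroup of a free group has the lifting property. -/
theorem lp_of_free {R : Type u} [Group R] [IsFreeGroup R] (K : Subgroup R) [K.Normal] : LP K := by
  intro p hp r hr hrp
  have hord : orderOf (r : R ⧸ K) = p := by
    have := Fact.mk hp
    apply orderOf_eq_prime
    · rw [← QuotientGroup.mk_pow]
      exact (QuotientGroup.eq_one_iff _).2 hrp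
    · intro h
      exact hr ((QuotientGroup.eq_one_iff _).1 h)
  set L : Subgroup R := K ⊔ Subgroup.zpowers r with hL
  have hKL : K ≤ L := le_sup_left
  have hrL : r ∈ L := (le_sup_right : Subgroup.zpowers r ≤ L) (Subgroup.mem_zpowers r)
  have hmem : ∀ x : L, ∃ n : ℤ, (r : R ⧸ K) ^ n = ((x : R) : R ⧸ K) := by
    have h1 : L ≤ (Subgroup.zpowers (r : R ⧸ K)).comap (QuotientGroup.mk' K) := by
      rw [hL]
      refine sup_le ?_ ?_
      · intro x hx
        rw [Subgroup.mem_comap, QuotientGroup.mk'_apply, (QuotientGroup.eq_one_iff _).2 hx]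
        exact one_mem _
      · rw [Subgroup.zpowers_le, Subgroup.mem_comap]
        exact Subgroup.mem_zpowers _
    intro x
    exact Subgroup.mem_zpowers_iff.1 (h1 x.2)
  choose n hn using hmem
  let χ : L →* Multiplicative ℤ := IsFreeGroup.lift (fun x => ofAdd (n (IsFreeGroup.of x)))
  have hχ : (zpowersHom (R ⧸ K) (r : R ⧸ K)).comp χ = (QuotientGroup.mk' K).comp L.subtype := by
    apply IsFreeGroup.ext_hom
    intro a
    simp only [MonoidHom.comp_apply]
    show zpowersHom (R ⧸ K) (r : R ⧸ K) (IsFreeGroup.lift _ (IsFreeGroup.of a)) = _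
    rw [IsFreeGroup.lift_of]
    simp only [zpowersHom_apply, toAdd_ofAdd]
    exact hn _
  have hχ' : ∀ x : L, (r : R ⧸ K) ^ (toAdd (χ x)) = ((x : R) : R ⧸ K) := by
    intro x
    have := DFunLike.congr_fun hχ x
    simpa using this
  refine ⟨L, χ, hKL, hrL, ?_, ?_⟩
  · intro x hx
    rw [← hord, orderOf_dvd_iff_zpow_eq_one, hχ']
    exact (QuotientGroup.eq_one_iff _).2 hx
  · rw [← hord, orderOf_dvd_iff_zpow_eq_one, zpow_sub, hχ', zpow_one]
    simp

section RF

variable {α : Type u}

/-- a partial injection of a finite set extends to a permutation. -/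
theorem exists_perm_extend {V : Type*} [Fintype V] (R : V → V → Prop)
    (h1 : ∀ v a b, R v a → R v b → a = b) (h2 : ∀ a b v, R a v → R b v → a = b) :
    ∃ π : Equiv.Perm V, ∀ v v', R v v' → π v = v' := by
  classical
  let e : {v // ∃ v', R v v'} ≃ {v' // ∃ v, R v v'} :=
    { toFun := fun v => ⟨v.2.choose, v.1, v.2.choose_spec⟩
      invFun := fun v' => ⟨v'.2.choose, v'.1, v'.2.choose_spec⟩
      left_inv := by
        rintro ⟨v, hv⟩
        ext1
        have h3 := hv.choose_spec
        set w := hv.choose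
        have h4 : ∃ v, R v w := ⟨v, h3⟩
        exact h2 _ _ _ h4.choose_spec h3
      right_inv := by
        rintro ⟨v, hv⟩
        ext1
        have h3 := hv.choose_spec
        set w := hv.choose
        have h4 : ∃ v, R w v := ⟨v, h3⟩
        exact h1 _ _ _ h4.choose_spec h3 }
  refine ⟨e.extendSubtype, fun v v' hvv' => ?_⟩
  rw [e.extendSubtype_apply_of_mem v ⟨v', hvv'⟩]
  have h3 : ∃ v', R v v' := ⟨v', hvv'⟩
  exact h1 _ _ _ h3.choose_spec hvv'

/-- free groups are residually finite. -/
theorem exists_perm_of_ne_one (w : FreeGroup α) (hw : w ≠ 1) :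
    ∃ (n : ℕ) (f : FreeGroup α →* Equiv.Perm (Fin n)), f w ≠ 1 := by
  classical
  set L := w.toWord with hL
  have hred : FreeGroup.IsReduced L := FreeGroup.isReduced_toWord
  have hch : ∀ i (a : α) (b c : Bool), L[i]? = some (a, b) → L[i+1]? = some (a, c) → b = c := by
    intro i a b c hb hc
    rw [List.getElem?_eq_some_iff] at hb hc
    obtain ⟨hi, hb⟩ := hb
    obtain ⟨hi', hc⟩ := hc
    have := (List.isChain_iff_getElem.1 hred) i hi'
    rw [hb, hc] at this
    exact this rfl
  let R : α → Fin (L.length + 1) → Fin (L.length + 1) → Prop := fun a v v' =>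
    (L[(v' : ℕ)]? = some (a, true) ∧ (v : ℕ) = v' + 1) ∨
      (L[(v : ℕ)]? = some (a, false) ∧ (v' : ℕ) = v + 1)
  have hR : ∀ a, ∃ π : Equiv.Perm (Fin (L.length + 1)), ∀ v v', R a v v' → π v = v' := by
    intro a
    apply exists_perm_extend
    · rintro v x y (⟨h1, h2⟩ | ⟨h1, h2⟩) (⟨h3, h4⟩ | ⟨h3, h4⟩)
      · ext; omega
      · exfalso
        rw [h2] at h3
        simpa using hch _ _ _ _ h1 h3
      · exfalso
        rw [h4] at h1
        simpa using hch _ _ _ _ h3 h1
      · ext; omega
    · rintro x y v (⟨h1, h2⟩ | ⟨h1, h2⟩) (⟨h3, h4⟩ | ⟨h3, h4⟩)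
      · ext; omega
      · exfalso
        rw [h4] at h1
        simpa using hch _ _ _ _ h3 h1
      · exfalso
        rw [h2] at h3
        simpa using hch _ _ _ _ h1 h3
      · ext; omega
  choose π hπ using hR
  refine ⟨L.length + 1, FreeGroup.lift π, ?_⟩
  have key : ∀ d k, k + d = L.length → ∀ (hk : k < L.length + 1) (hn : L.length < L.length + 1),
      FreeGroup.lift π (FreeGroup.mk (L.drop k)) ⟨L.length, hn⟩ = ⟨k, hk⟩ := by
    intro d
    induction d with
    | zero =>
      intro k hk hk' hn
      have h1 : k = L.length := by omega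
      subst h1
      rw [List.drop_length]
      simp
    | succ d ih =>
      intro k hk hk' hn
      have hkl : k < L.length := by omega
      have h1 := ih (k + 1) (by omega) (by omega) hn
      rw [List.drop_eq_getElem_cons hkl]
      rw [FreeGroup.lift_mk] at h1 ⊢
      rw [List.map_cons, List.prod_cons, Equiv.Perm.mul_apply, h1]
      have h2 : L[k]? = some L[k] := List.getElem?_eq_getElem hkl
      rcases hab : L[k] with ⟨a, b⟩
      rw [hab] at h2
      cases b
      · simp only [cond_false]
        rw [Equiv.Perm.inv_eq_iff_eq]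
        symm
        apply hπ
        right
        exact ⟨h2, rfl⟩
      · simp only [cond_true]
        apply hπ
        left
        exact ⟨h2, rfl⟩
  have h0 := key L.length 0 (by omega) (by omega) (by omega)
  have hw' : FreeGroup.mk L = w := FreeGroup.mk_toWord
  rw [List.drop_zero, hw'] at h0
  intro h1
  rw [h1, Equiv.Perm.one_apply, Fin.mk.injEq] at h0
  apply hw
  rw [← FreeGroup.toWord_eq_nil_iff]
  exact List.length_eq_zero_iff.1 h0

theorem rfl_freeGroup (α : Type u) : RFL (FreeGroup α) := by
  intro w hw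
  obtain ⟨n, f, hf⟩ := exists_perm_of_ne_one w hw
  refine ⟨f.ker, ⟨inferInstance, Subgroup.finiteIndex_ker _, lp_of_free _⟩, ?_⟩
  rwa [MonoidHom.mem_ker]

theorem rfl_int : RFL (Multiplicative ℤ) := by
  refine (rfl_freeGroup (Fin 1)).of_injective (zpowersHom _ (FreeGroup.of 0)) ?_
  intro a b hab
  rw [zpowersHom_apply, zpowersHom_apply] at hab
  have h1 : (FreeGroup.of (0 : Fin 1)) ^ (toAdd a - toAdd b) = 1 := by
    rw [zpow_sub, hab, mul_inv_cancel]
  rw [IsMulTorsionFree.zpow_eq_one_iff_right (FreeGroup.of_ne_one 0), sub_eq_zero] at h1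
  exact Multiplicative.toAdd.injective h1

end RF

end TFS
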