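import Mathlib

/-!
# Commutation transitivity in free groups; injectivity criterion
-/

set_option autoImplicit false

namespace TFS

universe u

section CT

variable {α : Type u}

theorem FG.mem_zpowers_of_commute (a : α) : ∀ (L : List (α × Bool)), FreeGroup.IsReduced L →
    Commute (FreeGroup.mk L) (FreeGroup.of a) → FreeGroup.mk L ∈ Subgroup.zpowers (FreeGroup.of a) := by
  classical
  intro L
  induction L with
  | nil => intro _ _; exact one_mem _
  | cons x L ih =>
    intro hred hcomm
    obtain ⟨b, t⟩ := x
    have hredL : FreeGroup.IsReduced L := (List.isChain_cons.1 hred).2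
    by_cases hb : b = a
    · subst hb
      have h1 : ∃ s : ℤ, FreeGroup.mk ((b, t) :: L) = (FreeGroup.of b) ^ s * FreeGroup.mk L := by
        cases t
        · refine ⟨-1, ?_⟩
          rw [zpow_neg, zpow_one, FreeGroup.of, FreeGroup.inv_mk, FreeGroup.mul_mk]
          rfl
        · refine ⟨1, ?_⟩
          rw [zpow_one, FreeGroup.of, FreeGroup.mul_mk]
          rfl
      obtain ⟨s, hs⟩ := h1
      rw [hs] at hcomm ⊢
      refine mul_mem (Subgroup.zpow_mem_zpowers _ _) (ih hredL ?_)
      have h2 : FreeGroup.mk L = ((FreeGroup.of b) ^ s)⁻¹ * ((FreeGroup.of b) ^ s * FreeGroup.mk L) := by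
        group
      rw [h2]
      refine Commute.mul_left ?_ hcomm
      exact ((Commute.refl (FreeGroup.of b)).zpow_left s).inv_left
    · exfalso
      have h1 : FreeGroup.IsReduced ((a, true) :: (b, t) :: L) := by
        rw [FreeGroup.IsReduced, List.isChain_cons_cons]
        exact ⟨fun h => absurd h.symm hb, hred⟩
      have h2 : FreeGroup.mk ((a, true) :: (b, t) :: L)
          = FreeGroup.mk (((b, t) :: L) ++ [(a, true)]) := by
        have h3 := hcomm.eq
        rw [FreeGroup.of, FreeGroup.mul_mk, FreeGroup.mul_mk] at h3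
        exact h3.symm
      have h4 : FreeGroup.reduce (((b, t) :: L) ++ [(a, true)]) = (a, true) :: (b, t) :: L := by
        rw [← FreeGroup.reduce.sound h2, h1.reduce_eq]
      have h5 : (FreeGroup.reduce (((b, t) :: L) ++ [(a, true)])).Sublist (((b, t) :: L) ++ [(a, true)]) :=
        (FreeGroup.reduce.red).sublist
      rw [h4] at h5
      have h6 := h5.eq_of_length (by simp)
      simp only [List.cons_append, List.cons.injEq, Prod.mk.injEq] at h6
      exact hb h6.1.1.symm

theorem FG.mem_zpowers_of_commute' (a : α) (x : FreeGroup α) (h : Commute x (FreeGroup.of a)) :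
    x ∈ Subgroup.zpowers (FreeGroup.of a) := by
  classical
  rw [← FreeGroup.mk_toWord (x := x)] at h ⊢
  exact FG.mem_zpowers_of_commute a _ FreeGroup.isReduced_toWord h

theorem FG.eq_one_of_two {a b : α} (hab : a ≠ b) (x : FreeGroup α)
    (ha : x ∈ Subgroup.zpowers (FreeGroup.of a)) (hb : x ∈ Subgroup.zpowers (FreeGroup.of b)) :
    x = 1 := by
  classical
  obtain ⟨n, rfl⟩ := Subgroup.mem_zpowers_iff.1 ha
  obtain ⟨m, hm⟩ := Subgroup.mem_zpowers_iff.1 hb
  have h1 := congrArg (FreeGroup.lift (fun c => if c = a then Multiplicative.ofAdd (1 : ℤ) else 1)) hm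
  rw [map_zpow, map_zpow, FreeGroup.lift_apply_of, FreeGroup.lift_apply_of, if_pos rfl, if_neg (Ne.symm hab),
    one_zpow, ← ofAdd_zsmul, smul_eq_mul, mul_one] at h1
  have h2 : n = 0 := (ofAdd_eq_one.1 h1.symm)
  rw [h2, zpow_zero]

theorem FG.comm_of_subsingleton [Subsingleton α] (x y : FreeGroup α) : Commute x y := by
  rcases isEmpty_or_nonempty α with h | ⟨⟨a⟩⟩
  · have h1 : ∀ z : FreeGroup α, z = 1 := by
      intro z
      induction z using FreeGroup.induction_on with
      | C1 => rfl
      | of b => exact h.elim b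
      | inv_of b => exact h.elim b
      | mul u v hu hv => rw [hu, hv, one_mul]
    rw [h1 x, h1 y]
  · have h1 : ∀ z : FreeGroup α, z ∈ Subgroup.zpowers (FreeGroup.of a) := by
      intro z
      induction z using FreeGroup.induction_on with
      | C1 => exact one_mem _
      | of b => rw [Subsingleton.elim b a]; exact Subgroup.mem_zpowers _
      | inv_of b _ => rw [Subsingleton.elim b a]; exact inv_mem (Subgroup.mem_zpowers _)
      | mul u v hu hv => exact mul_mem hu hv
    obtain ⟨n, hn⟩ := Subgroup.mem_zpowers_iff.1 (h1 x)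
    obtain ⟨m, hm⟩ := Subgroup.mem_zpowers_iff.1 (h1 y)
    rw [← hn, ← hm]
    exact ((Commute.refl _).zpow_left n).zpow_right m

end CT

/-- commutation transitivity. -/
theorem FG.ct {F : Type u} [Group F] [IsFreeGroup F] {x y z : F} (hx : x ≠ 1) (hxy : Commute x y)
    (hxz : Commute x z) : Commute y z := by
  classical
  set C : Subgroup F := Subgroup.centralizer {x} with hC
  let ψ : C ≃* FreeGroup (IsFreeGroup.Generators C) := IsFreeGroup.toFreeGroup C
  have hmem : ∀ w, w ∈ C ↔ Commute x w := by
    intro w
    rw [hC, Subgroup.mem_centralizer_iff]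
    simp [commute_iff_eq]
  let X : C := ⟨x, (hmem x).2 (Commute.refl x)⟩
  have hX : ∀ w, Commute (ψ X) w := by
    intro w
    obtain ⟨v, rfl⟩ := ψ.surjective w
    have : Commute X v := Subtype.ext ((hmem _).1 v.2)
    exact this.map ψ
  have hss : Subsingleton (IsFreeGroup.Generators C) := by
    constructor
    intro a b
    by_contra hab
    have h1 := FG.eq_one_of_two hab (ψ X) (FG.mem_zpowers_of_commute' a _ (hX _))
      (FG.mem_zpowers_of_commute' b _ (hX _))
    rw [map_eq_one_iff ψ ψ.injective] at h1
    exact hx (congrArg Subtype.val h1)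
  let Y : C := ⟨y, (hmem y).2 hxy⟩
  let Z : C := ⟨z, (hmem z).2 hxz⟩
  have h1 : Commute (ψ Y) (ψ Z) := FG.comm_of_subsingleton _ _
  have h2 : Commute Y Z := by
    have := h1.map ψ.symm
    simpa using this
  exact congrArg Subtype.val h2

theorem FG.commute_of_pow {α : Type u} {x y : FreeGroup α} {n m : ℕ} (hn : n ≠ 0) (hm : m ≠ 0)
    (h : Commute (x ^ n) (y ^ m)) : Commute x y := by
  by_cases hx : x = 1
  · rw [hx]; exact Commute.one_left y
  by_cases hy : y = 1
  · rw [hy]; exact Commute.one_right x
  have hxn : x ^ n ≠ 1 := by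
    intro h1
    rw [pow_eq_one_iff_left hn] at h1
    exact hx h1
  have hym : y ^ m ≠ 1 := by
    intro h1
    rw [pow_eq_one_iff_left hm] at h1
    exact hy h1
  have h1 : Commute x (y ^ m) := FG.ct hxn ((Commute.refl x).pow_left n) h
  exact FG.ct hym h1.symm ((Commute.refl y).pow_left m)

section Inj

variable {α β : Type u}

/-- the word of a letter. -/
def wd (W : α → List (β × Bool)) (x : α × Bool) : List (β × Bool) :=
  cond x.2 (W x.1) (FreeGroup.invRev (W x.1))

/-- injectivity criterion: concatenations of images of reduced words are reduced. -/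
theorem FG.lift_injective_of_words (W : α → List (β × Bool)) (hne : ∀ a, W a ≠ [])
    (hred : ∀ x, FreeGroup.IsReduced (wd W x))
    (hjoin : ∀ x y : α × Bool, (x.1 = y.1 → x.2 = y.2) →
      ∀ u ∈ (wd W x).getLast?, ∀ v ∈ (wd W y).head?, (u.1 = v.1 → u.2 = v.2)) :
    Function.Injective (FreeGroup.lift (fun a => FreeGroup.mk (W a))) := by
  classical
  rw [injective_iff_map_eq_one]
  intro w hw
  set L := w.toWord with hL
  have hredL : FreeGroup.IsReduced L := FreeGroup.isReduced_toWord
  have hwL : FreeGroup.mk L = w := FreeGroup.mk_toWord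
  have h1 : ∀ M : List (α × Bool), FreeGroup.lift (fun a => FreeGroup.mk (W a)) (FreeGroup.mk M)
      = FreeGroup.mk ((M.map (wd W)).flatten) := by
    intro M
    induction M with
    | nil => simp [FreeGroup.one_eq_mk]
    | cons x M ih =>
      rw [FreeGroup.lift_mk] at ih ⊢
      rw [List.map_cons, List.prod_cons, ih, List.map_cons, List.flatten_cons, ← FreeGroup.mul_mk]
      congr 1
      obtain ⟨a, b⟩ := x
      cases b
      · simp [wd]
      · simp [wd]
  have hne' : ∀ x, wd W x ≠ [] := by
    rintro ⟨a, b⟩
    cases b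
    · intro h
      apply hne a
      simp only [wd, cond_false] at h
      have := congrArg List.length h
      rw [FreeGroup.invRev_length] at this
      exact List.length_eq_zero_iff.1 this
    · exact hne a
  have h2 : FreeGroup.IsReduced ((L.map (wd W)).flatten) := by
    rw [FreeGroup.IsReduced, List.isChain_flatten]
    · refine ⟨?_, ?_⟩
      · intro l hl
        obtain ⟨x, -, rfl⟩ := List.mem_map.1 hl
        exact hred x
      · rw [List.isChain_map]
        exact hredL.imp (fun x y hxy => hjoin x y hxy)
    · intro h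
      obtain ⟨x, -, hx⟩ := List.mem_map.1 h
      exact hne' x hx
  rw [← hwL, h1] at hw
  have h3 : FreeGroup.reduce ((L.map (wd W)).flatten) = [] := by
    rw [← FreeGroup.toWord_mk, hw, FreeGroup.toWord_one]
  rw [h2.reduce_eq] at h3
  have h4 : L = [] := by
    rcases hL' : L with _ | ⟨x, M⟩
    · rfl
    · rw [hL'] at h3
      simp only [List.map_cons, List.flatten_cons, List.append_eq_nil_iff] at h3
      exact absurd h3.1 (hne' x)
  rw [← hwL, h4]
  rfl

end Inj

end TFS
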