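import Mathlib
import Pool.Agent.Lib_helper1.TFS.FreeCT

/-!
# The embedding `F₃ → [F₆,F₆]` and non-powers
-/

set_option autoImplicit false

namespace TFS

open scoped commutatorElement

/-- the free group of rank 6 -/
abbrev F6 := FreeGroup (Fin 6)
/-- the free group of rank 3 -/
abbrev F3 := FreeGroup (Fin 3)

/-- the letters of the three commutators. -/
def Wc (i : Fin 3) : List (Fin 6 × Bool) :=
  match i with
  | 0 => [(0, true), (1, true), (0, false), (1, false)]
  | 1 => [(2, true), (3, true), (2, false), (3, false)]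
  | 2 => [(4, true), (5, true), (4, false), (5, false)]

/-- the embedding `F₃ → [F₆,F₆]`. -/
def phi : F3 →* F6 := FreeGroup.lift (fun i => FreeGroup.mk (Wc i))

theorem phi_injective : Function.Injective phi := by
  apply FG.lift_injective_of_words
  · decide
  · intro x
    rw [FreeGroup.isReduced_iff_reduce_eq]
    revert x
    decide
  · rintro ⟨i, b⟩ ⟨j, c⟩ h
    have : ∀ (i j : Fin 3) (b c : Bool), (i = j → b = c) → ∀ u ∈ (wd Wc (i, b)).getLast?,
      ∀ v ∈ (wd Wc (j, c)).head?, (u.1 = v.1 → u.2 = v.2) := by decide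
    exact this i j b c h

/-- the element `g = [s₀,s₁]`. -/
def gg : F6 := phi (FreeGroup.of 0)
/-- the element `[[s₂,s₃],[s₄,s₅]]`. -/
def cc : F6 := phi ⁅(FreeGroup.of 1 : F3), FreeGroup.of 2⁆

theorem gg_eq : gg = ⁅(FreeGroup.of 0 : F6), FreeGroup.of 1⁆ := by decide

theorem phi_mem (y : F3) : phi y ∈ commutator F6 := by
  have h1 : ∀ i, FreeGroup.mk (Wc i) ∈ commutator F6 := by
    intro i
    fin_cases i
    · have : FreeGroup.mk (Wc 0) = ⁅(FreeGroup.of 0 : F6), FreeGroup.of 1⁆ := by decide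
      show FreeGroup.mk (Wc 0) ∈ _
      rw [this]
      exact Subgroup.commutator_mem_commutator (Subgroup.mem_top _) (Subgroup.mem_top _)
    · have : FreeGroup.mk (Wc 1) = ⁅(FreeGroup.of 2 : F6), FreeGroup.of 3⁆ := by decide
      show FreeGroup.mk (Wc 1) ∈ _
      rw [this]
      exact Subgroup.commutator_mem_commutator (Subgroup.mem_top _) (Subgroup.mem_top _)
    · have : FreeGroup.mk (Wc 2) = ⁅(FreeGroup.of 4 : F6), FreeGroup.of 5⁆ := by decide
      show FreeGroup.mk (Wc 2) ∈ _
      rw [this]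
      exact Subgroup.commutator_mem_commutator (Subgroup.mem_top _) (Subgroup.mem_top _)
  induction y using FreeGroup.induction_on with
  | C1 => rw [map_one]; exact one_mem _
  | of i => rw [phi, FreeGroup.lift_apply_of]; exact h1 i
  | inv_of i _ => rw [map_inv]; rw [phi, FreeGroup.lift_apply_of]; exact inv_mem (h1 i)
  | mul x y hx hy => rw [map_mul]; exact mul_mem hx hy

/-- words of `psi`. -/
def Wp (q : ℕ) (i : Fin 3) : List (Fin 3 × Bool) :=
  match i with
  | 0 => List.replicate q (0, true)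
  | 1 => [(1, true)]
  | 2 => [(2, true)]

/-- the embedding `t ↦ t^q`, `a ↦ a`, `b ↦ b` of `F₃`. -/
def psi (q : ℕ) : F3 →* F3 := FreeGroup.lift (fun i => FreeGroup.mk (Wp q i))

theorem wd_Wp (q : ℕ) (i : Fin 3) (b : Bool) : ∃ n, wd (Wp q) (i, b) = List.replicate n (i, b) ∧
    (q ≠ 0 → n ≠ 0) := by
  fin_cases i
  · cases b
    · refine ⟨q, ?_, id⟩
      simp [wd, Wp, FreeGroup.invRev]
    · exact ⟨q, by simp [wd, Wp], id⟩
  · refine ⟨1, ?_, fun _ => one_ne_zero⟩
    cases b <;> rfl
  · refine ⟨1, ?_, fun _ => one_ne_zero⟩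
    cases b <;> rfl

theorem psi_injective (q : ℕ) (hq : q ≠ 0) : Function.Injective (psi q) := by
  apply FG.lift_injective_of_words
  · intro i h
    obtain ⟨n, hn, hn'⟩ := wd_Wp q i true
    simp only [wd, cond_true] at hn
    rw [h] at hn
    exact hn' hq (by simpa using congrArg List.length hn.symm)
  · rintro ⟨i, b⟩
    obtain ⟨n, hn, -⟩ := wd_Wp q i b
    rw [hn, FreeGroup.isReduced_iff_reduce_eq, FreeGroup.reduce_replicate]
  · rintro ⟨i, b⟩ ⟨j, c⟩ h u hu v hv
    obtain ⟨n, hn, hn'⟩ := wd_Wp q i b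
    obtain ⟨m, hm, hm'⟩ := wd_Wp q j c
    rw [hn] at hu
    rw [hm] at hv
    have h1 : u = (i, b) := by
      have := List.mem_of_getLast? hu
      exact List.eq_of_mem_replicate this
    have h2 : v = (j, c) := by
      have := List.mem_of_head? hv
      exact List.eq_of_mem_replicate this
    rw [h1, h2]
    exact h

theorem psi_zero (q : ℕ) : psi q (FreeGroup.of 0) = FreeGroup.of 0 ^ q := by
  apply FreeGroup.toWord_injective
  rw [FreeGroup.toWord_of_pow, psi, FreeGroup.lift_apply_of]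
  show (FreeGroup.mk (List.replicate q ((0 : Fin 3), true))).toWord = _
  rw [FreeGroup.toWord_mk, FreeGroup.reduce_replicate]

theorem psi_one (q : ℕ) : psi q (FreeGroup.of 1) = FreeGroup.of 1 := by
  rw [psi, FreeGroup.lift_apply_of]; rfl

theorem psi_two (q : ℕ) : psi q (FreeGroup.of 2) = FreeGroup.of 2 := by
  rw [psi, FreeGroup.lift_apply_of]; rfl

/-- the embedding `t ↦ g^q`, `a ↦ [s₂,s₃]`, `b ↦ [s₄,s₅]`. -/
def phq (q : ℕ) : F3 →* F6 := phi.comp (psi q)

theorem phq_injective (q : ℕ) (hq : q ≠ 0) : Function.Injective (phq q) :=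
  phi_injective.comp (psi_injective q hq)

theorem phq_mem (q : ℕ) (y : F3) : phq q y ∈ commutator F6 := phi_mem _

theorem phq_t (q : ℕ) : phq q (FreeGroup.of 0) = gg ^ q := by
  rw [phq, MonoidHom.comp_apply, psi_zero, map_pow, gg]

theorem phq_tc (q : ℕ) : phq q (FreeGroup.of 0 * ⁅(FreeGroup.of 1 : F3), FreeGroup.of 2⁆) = gg ^ q * cc := by
  rw [phq, MonoidHom.comp_apply, map_mul, psi_zero, map_commutatorElement, psi_one, psi_two, map_mul,
    map_pow, gg, cc]

theorem not_commute_gg : ¬ Commute gg (FreeGroup.of 0) := by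
  intro h
  have h1 : gg * FreeGroup.of 0 = FreeGroup.of 0 * gg := h
  revert h1
  decide

end TFS
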