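import Mathlib
import Pool.Agent.Lib_helper1.TFS.CoverEx
import Pool.Agent.Lib_helper1.TFS.Free
import Pool.Agent.Lib_helper1.TFS.FreeEx

/-!
# Stages and connecting maps
-/

set_option autoImplicit false

namespace TFS

open Multiplicative (toAdd ofAdd)
open scoped commutatorElement

/-- a stage of the construction. -/
structure St where
  /-- the group from the previous stage -/
  B : Type
  [gB : Group B]
  /-- the finite set -/
  Ω : Type
  [fΩ : Fintype Ω]
  [dΩ : DecidableEq Ω]
  /-- the top group -/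
  E : Type
  [gE : Group E]
  /-- the action -/
  act : E →* Equiv.Perm Ω
  tB : ∀ x : B, x ≠ 1 → ¬ IsOfFinOrder x
  rB : RFL B
  cB : Countable B
  tE : ∀ x : E, x ≠ 1 → ¬ IsOfFinOrder x
  rE : RFL E
  cE : Countable E
  alt : AltAct act
  lp : LP act.ker

attribute [instance] St.gB St.fΩ St.dΩ St.gE St.cB St.cE

namespace St

/-- the coefficient group -/
abbrev A (s : St) : Type := F6 × s.B × Multiplicative ℤ

/-- the group of the stage -/
def G (s : St) : Type := Wr.zero s.A s.act

noncomputable instance (s : St) : Group s.G := inferInstanceAs (Group (Wr.zero s.A s.act))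

variable {s : St}

/-- the inclusion in the wreath product -/
noncomputable def inc (s : St) : s.G →* Wr s.A s.act := (Wr.zero s.A s.act).subtype

theorem inc_injective : Function.Injective s.inc := Subtype.val_injective

theorem G.ext {x y : s.G} (h : ∀ ω, (s.inc x).v ω = (s.inc y).v ω) (h' : (s.inc x).e = (s.inc y).e) :
    x = y := inc_injective (Wr.ext' h h')

/-- the permutation of `Ω` -/
noncomputable def perm (s : St) : s.G →* Equiv.Perm s.Ω := (Wr.actW s.act).comp s.inc

theorem perm_apply (x : s.G) : s.perm x = s.act (s.inc x).e := rfl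

/-- the coordinates -/
noncomputable def v (x : s.G) (ω : s.Ω) : s.A := (s.inc x).v ω

theorem v_mul (x y : s.G) (ω : s.Ω) : v (x * y) ω = v x (s.perm y ω) * v y ω := rfl

theorem v_one (ω : s.Ω) : v (1 : s.G) ω = 1 := rfl

/-- the `ℤ`-coordinate -/
noncomputable def n (x : s.G) (ω : s.Ω) : ℤ := toAdd (v x ω).2.2

theorem n_mul (x y : s.G) (ω : s.Ω) : n (x * y) ω = n x (s.perm y ω) + n y ω := rfl

theorem n_one (ω : s.Ω) : n (1 : s.G) ω = 0 := rfl

/-- the map of the `ℤ`-coordinate on the abelianization -/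
noncomputable def abN (s : St) : Abelianization s.A →* Multiplicative ℤ :=
  Abelianization.lift ((MonoidHom.snd s.B (Multiplicative ℤ)).comp (MonoidHom.snd F6 (s.B × Multiplicative ℤ)))

theorem sum_n (x : s.G) : ∑ ω, n x ω = 0 := by
  have h : ∏ ω, Abelianization.of (v x ω) = 1 := x.2
  have h1 := congrArg (abN s) h
  rw [map_prod, map_one] at h1
  have h2 : ∀ ω, abN s (Abelianization.of (v x ω)) = ofAdd (n x ω) := by
    intro ω
    rw [abN, Abelianization.lift_apply_of]
    rfl
  simp only [h2] at h1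
  rw [← ofAdd_sum, ofAdd_eq_one] at h1
  exact h1

theorem countable_G (s : St) : Countable s.G := by
  have h6 : Function.Injective (fun x : s.G => ((s.inc x).v, (s.inc x).e)) := by
    intro x y h
    simp only [Prod.mk.injEq] at h
    exact inc_injective (Wr.ext h.1 h.2)
  have : Countable F6 := by
    have : Function.Injective (FreeGroup.toWord : F6 → _) := FreeGroup.toWord_injective
    exact this.countable
  have : Countable (s.Ω → s.A) := inferInstance
  exact h6.countable

theorem freeGroup_tf {α : Type*} (x : FreeGroup α) (hx : x ≠ 1) : ¬ IsOfFinOrder x := by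
  rw [isOfFinOrder_iff_pow_eq_one]
  rintro ⟨n, hn, h⟩
  rw [pow_eq_one_iff_left hn.ne'] at h
  exact hx h

theorem prod_tf {A B : Type*} [Group A] [Group B] (hA : ∀ x : A, x ≠ 1 → ¬ IsOfFinOrder x)
    (hB : ∀ x : B, x ≠ 1 → ¬ IsOfFinOrder x) (x : A × B) (hx : x ≠ 1) : ¬ IsOfFinOrder x := by
  intro h
  by_cases h1 : x.1 = 1
  · refine hB x.2 (fun h2 => hx (Prod.ext h1 h2)) ?_
    exact (MonoidHom.snd A B).isOfFinOrder h
  · exact hA x.1 h1 ((MonoidHom.fst A B).isOfFinOrder h)

theorem int_tf (x : Multiplicative ℤ) (hx : x ≠ 1) : ¬ IsOfFinOrder x := by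
  rw [isOfFinOrder_iff_pow_eq_one]
  rintro ⟨n, hn, h⟩
  rw [pow_eq_one_iff_left hn.ne'] at h
  exact hx h

theorem tA (s : St) : ∀ x : s.A, x ≠ 1 → ¬ IsOfFinOrder x :=
  prod_tf (fun x hx => freeGroup_tf x hx) (prod_tf s.tB int_tf)

theorem tG (s : St) : ∀ x : s.G, x ≠ 1 → ¬ IsOfFinOrder x := by
  intro x hx h
  refine Wr.torsionFree s.tA s.tE (s.inc x) (fun h1 => hx (inc_injective (h1.trans (map_one s.inc).symm))) ?_
  exact s.inc.isOfFinOrder h

theorem rA (s : St) : RFL s.A := (rfl_freeGroup (Fin 6)).prod (s.rB.prod rfl_int)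

theorem rG (s : St) : RFL s.G := (RFL.wr s.rA s.rE s.lp).of_injective s.inc inc_injective

theorem perfect (s : St) : commutator s.G = ⊤ := s.alt.perfect_zero

theorem lp_perm (s : St) : LP s.perm.ker :=
  (s.lp.comap ((Wr.top s.act).comp s.inc)).of_eq (by
    ext x; rw [Subgroup.mem_comap, MonoidHom.mem_ker, MonoidHom.mem_ker]; rfl)

theorem normalClosure (s : St) (x : s.G) (hx : s.perm x ≠ 1) :
    Subgroup.normalClosure {x} = (⊤ : Subgroup s.G) := s.alt.normalClosure_eq_top x hx

end St

end TFS
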