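import Mathlib
import Pool.Agent.Lib_helper1.TFS.Stage

/-!
# Connecting maps
-/

set_option autoImplicit false

namespace TFS

open Multiplicative (toAdd ofAdd)
open scoped commutatorElement

theorem hom_eq_one_of_perfect {P H : Type*} [Group P] [CommGroup H] (hP : commutator P = ⊤)
    (f : P →* H) (x : P) : f x = 1 := by
  have h1 : commutator P ≤ f.ker := Abelianization.commutator_subset_ker _
  rw [hP] at h1
  exact h1 (Subgroup.mem_top x)

theorem prod_zpow_eq {H ι : Type*} [CommGroup H] [Fintype ι] (a : H) (n : ι → ℤ) :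
    ∏ i, a ^ n i = a ^ (∑ i, n i) := by
  have h := map_prod (zpowersHom H a) (fun i => ofAdd (n i)) Finset.univ
  rw [← ofAdd_sum, zpowersHom_apply, toAdd_ofAdd] at h
  rw [h]
  rfl

/-- a step between two stages. -/
structure Step (s t : St) where
  /-- the identification of the old group with the new coefficient group -/
  j : s.G ≃* t.B
  /-- the inclusion of the points -/
  i : s.Ω → t.Ω
  i_inj : Function.Injective i
  /-- the distinguished new point -/
  star : t.Ω
  star_ne : ∀ ω, i ω ≠ star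
  /-- the lift of the action -/
  e : s.G →* t.E
  e_i : ∀ f ω, t.act (e f) (i ω) = i (s.perm f ω)
  e_star : ∀ f, t.act (e f) star = star

namespace Step

variable {s t : St} (st : Step s t)

include st in
theorem perfect_B : commutator t.B = ⊤ := by
  have h := Subgroup.map_commutator (⊤ : Subgroup s.G) ⊤ st.j.toMonoidHom
  rw [← commutator_def, s.perfect, Subgroup.map_top_of_surjective _ st.j.surjective,
    ← commutator_def] at h
  exact h.symm

/-- extension of a function by one -/
noncomputable def up : (s.Ω → t.A) →* (t.Ω → t.A) := Function.ExtendByOne.hom t.A st.i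

theorem up_i (y : s.Ω → t.A) (ω : s.Ω) : st.up y (st.i ω) = y ω :=
  st.i_inj.extend_apply _ _ _

theorem up_of_ne (y : s.Ω → t.A) {w : t.Ω} (hw : ∀ ω, st.i ω ≠ w) : st.up y w = 1 :=
  Function.extend_apply' _ _ _ (by simpa using hw)

theorem up_star (y : s.Ω → t.A) : st.up y st.star = 1 := st.up_of_ne y st.star_ne

theorem act_ne {f : s.G} {w : t.Ω} (hw : ∀ ω, st.i ω ≠ w) : ∀ ω, st.i ω ≠ t.act (st.e f) w := by
  intro ω h
  apply hw (s.perm f⁻¹ ω)
  rw [← st.e_i, h, map_inv, map_inv, Equiv.Perm.inv_eq_iff_eq]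

theorem act_ne_star {f : s.G} {w : t.Ω} (hw : w ≠ st.star) : t.act (st.e f) w ≠ st.star := by
  intro h
  apply hw
  rw [← st.e_star f] at h
  exact (t.act (st.e f)).injective h

theorem cases_w (w : t.Ω) : (∃ ω, w = st.i ω) ∨ w = st.star ∨ ((∀ ω, st.i ω ≠ w) ∧ w ≠ st.star) := by
  by_cases h : ∃ ω, w = st.i ω
  · exact Or.inl h
  · by_cases h' : w = st.star
    · exact Or.inr (Or.inl h')
    · exact Or.inr (Or.inr ⟨fun ω hω => h ⟨ω, hω.symm⟩, h'⟩)

/-- the values of the connecting map -/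
noncomputable def cv (x : F6) (f : s.G) : t.Ω → t.A :=
  st.up (fun ω => (x ^ St.n f ω, 1, ofAdd (St.n f ω))) * Pi.mulSingle st.star (1, st.j f, 1)

theorem cv_i (x : F6) (f : s.G) (ω : s.Ω) :
    st.cv x f (st.i ω) = (x ^ St.n f ω, 1, ofAdd (St.n f ω)) := by
  rw [cv, Pi.mul_apply, st.up_i, Pi.mulSingle_eq_of_ne (st.star_ne ω), mul_one]

theorem cv_star (x : F6) (f : s.G) : st.cv x f st.star = (1, st.j f, 1) := by
  rw [cv, Pi.mul_apply, st.up_star, Pi.mulSingle_eq_same, one_mul]

theorem cv_of_ne (x : F6) (f : s.G) {w : t.Ω} (hw : ∀ ω, st.i ω ≠ w) (hw' : w ≠ st.star) :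
    st.cv x f w = 1 := by
  rw [cv, Pi.mul_apply, st.up_of_ne _ hw, Pi.mulSingle_eq_of_ne hw', one_mul]

theorem cv_mul (x : F6) (f f' : s.G) (w : t.Ω) :
    st.cv x (f * f') w = st.cv x f (t.act (st.e f') w) * st.cv x f' w := by
  rcases st.cases_w w with ⟨ω, rfl⟩ | rfl | ⟨h1, h2⟩
  · rw [st.cv_i, st.e_i, st.cv_i, st.cv_i, St.n_mul]
    simp only [Prod.mk_mul_mk, mul_one, zpow_add, ofAdd_add]
  · rw [st.cv_star, st.e_star, st.cv_star, st.cv_star, map_mul]
    simp only [Prod.mk_mul_mk, mul_one]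
  · rw [st.cv_of_ne _ _ h1 h2, st.cv_of_ne _ _ h1 h2, st.cv_of_ne _ _ (st.act_ne h1)
      (st.act_ne_star h2), one_mul]

include st in
theorem of_B (b : t.B) : Abelianization.of ((1, b, 1) : t.A) = 1 :=
  hom_eq_one_of_perfect st.perfect_B (Abelianization.of.comp
    ((MonoidHom.inr F6 (t.B × Multiplicative ℤ)).comp (MonoidHom.inl t.B (Multiplicative ℤ)))) b

theorem prod_up (y : s.Ω → t.A) :
    ∏ w, Abelianization.of (st.up y w) = ∏ ω, Abelianization.of (y ω) := by
  symm
  apply Fintype.prod_of_injective st.i st.i_inj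
  · intro w hw
    rw [st.up_of_ne, map_one]
    intro ω hω
    exact hw ⟨ω, hω⟩
  · intro ω
    rw [st.up_i]

theorem prod_mulSingle (b : t.B) :
    ∏ w, Abelianization.of ((Pi.mulSingle st.star ((1, b, 1) : t.A) : t.Ω → t.A) w) = 1 := by
  apply Finset.prod_eq_one
  intro w _
  by_cases h : w = st.star
  · rw [h, Pi.mulSingle_eq_same, st.of_B]
  · rw [Pi.mulSingle_eq_of_ne h, map_one]

theorem prod_cv (x : F6) (f : s.G) : ∏ w, Abelianization.of (st.cv x f w) = 1 := by
  have h1 : ∀ w, Abelianization.of (st.cv x f w)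
      = Abelianization.of (st.up (fun ω => (x ^ St.n f ω, 1, ofAdd (St.n f ω))) w)
        * Abelianization.of ((Pi.mulSingle st.star ((1, st.j f, 1) : t.A) : t.Ω → t.A) w) := by
    intro w
    rw [cv, Pi.mul_apply, map_mul]
  simp only [h1]
  rw [Finset.prod_mul_distrib, st.prod_mulSingle, mul_one, st.prod_up]
  have h2 : ∀ ω, Abelianization.of ((x ^ St.n f ω, 1, ofAdd (St.n f ω)) : t.A)
      = (Abelianization.of ((x, 1, ofAdd 1) : t.A)) ^ (St.n f ω) := by
    intro ω
    rw [← map_zpow]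
    congr 1
    simp [← ofAdd_zsmul]
  simp only [h2]
  rw [prod_zpow_eq, St.sum_n, zpow_zero]

/-- the connecting map -/
noncomputable def c (x : F6) : s.G →* t.G where
  toFun f := ⟨⟨st.cv x f, st.e f⟩, st.prod_cv x f⟩
  map_one' := by
    apply St.G.ext
    · intro w
      show st.cv x 1 w = 1
      have := st.cv_mul x 1 1 w
      rw [mul_one, map_one, map_one, Equiv.Perm.one_apply] at this
      exact (mul_eq_left.1 this.symm)
    · show st.e 1 = 1
      exact map_one _
  map_mul' f f' := by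
    apply St.G.ext
    · intro w
      exact st.cv_mul x f f' w
    · exact map_mul st.e f f'

theorem v_c (x : F6) (f : s.G) (w : t.Ω) : St.v (st.c x f) w = st.cv x f w := rfl

theorem perm_c (x : F6) (f : s.G) : t.perm (st.c x f) = t.act (st.e f) := rfl

theorem perm_c_i (x : F6) (f : s.G) (ω : s.Ω) : t.perm (st.c x f) (st.i ω) = st.i (s.perm f ω) :=
  st.e_i f ω

theorem perm_c_star (x : F6) (f : s.G) : t.perm (st.c x f) st.star = st.star := st.e_star f

theorem n_c_i (x : F6) (f : s.G) (ω : s.Ω) : St.n (st.c x f) (st.i ω) = St.n f ω := by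
  rw [St.n, v_c, cv_i]; rfl

theorem n_c_of_ne (x : F6) (f : s.G) {w : t.Ω} (hw : ∀ ω, st.i ω ≠ w) :
    St.n (st.c x f) w = 0 := by
  rw [St.n, v_c]
  by_cases h : w = st.star
  · subst h
    rw [cv_star]; rfl
  · rw [st.cv_of_ne _ _ hw h]; rfl

theorem c_injective (x : F6) : Function.Injective (st.c x) := by
  intro f f' h
  have h1 : St.v (st.c x f) st.star = St.v (st.c x f') st.star := by rw [h]
  rw [v_c, v_c, cv_star, cv_star, Prod.mk.injEq, Prod.mk.injEq] at h1
  exact st.j.injective h1.2.1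

end Step

end TFS
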