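import Mathlib
import Pool.Agent.Lib_helper1.TFS.FreeEx

/-!
# Non-powers in the free group, via unipotent matrices
-/

set_option autoImplicit false

namespace TFS

open scoped commutatorElement
open Matrix

section

variable {R : Type*} [CommRing R]

/-- matrices vanishing below the `a`-th superdiagonal. -/
def Up (a : ℕ) (M : Matrix (Fin 5) (Fin 5) R) : Prop := ∀ i j : Fin 5, (j : ℕ) < i + a → M i j = 0

theorem Up.mul {a b : ℕ} {M N : Matrix (Fin 5) (Fin 5) R} (hM : Up a M) (hN : Up b N) :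
    Up (a + b) (M * N) := by
  intro i j hij
  rw [Matrix.mul_apply]
  apply Finset.sum_eq_zero
  intro k _
  by_cases h : (k : ℕ) < i + a
  · rw [hM i k h, zero_mul]
  · rw [hN k j (by omega), mul_zero]

theorem Up.add {a : ℕ} {M N : Matrix (Fin 5) (Fin 5) R} (hM : Up a M) (hN : Up a N) :
    Up a (M + N) := by
  intro i j hij
  rw [Matrix.add_apply, hM i j hij, hN i j hij, add_zero]

theorem Up.neg {a : ℕ} {M : Matrix (Fin 5) (Fin 5) R} (hM : Up a M) :
    Up a (-M) := by
  intro i j hij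
  rw [Matrix.neg_apply, hM i j hij, neg_zero]

theorem Up.mono {a b : ℕ} (h : a ≤ b) {M : Matrix (Fin 5) (Fin 5) R} (hM : Up b M) : Up a M :=
  fun i j hij => hM i j (by omega)

theorem Up.pow {M : Matrix (Fin 5) (Fin 5) R} (hM : Up 1 M) (n : ℕ) : Up n (M ^ n) := by
  induction n with
  | zero =>
    intro i j hij
    rw [pow_zero, Matrix.one_apply_ne]
    rintro rfl
    omega
  | succ n ih =>
    rw [pow_succ]
    exact ih.mul hM

theorem Up.eq_zero {a : ℕ} (ha : 5 ≤ a) {M : Matrix (Fin 5) (Fin 5) R} (hM : Up a M) : M = 0 := by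
  ext i j
  exact hM i j (by omega)

/-- the subgroup of unipotent upper triangular matrices. -/
def Un (R : Type*) [CommRing R] : Subgroup (Matrix (Fin 5) (Fin 5) R)ˣ where
  carrier := {u | Up 1 ((u : Matrix (Fin 5) (Fin 5) R) - 1) ∧ Up 1 ((u⁻¹ : (Matrix (Fin 5) (Fin 5) R)ˣ) - 1 : Matrix (Fin 5) (Fin 5) R)}
  one_mem' := by
    have h : Up 1 (0 : Matrix (Fin 5) (Fin 5) R) := fun _ _ _ => rfl
    simpa using h
  mul_mem' := by
    have key : ∀ u v : (Matrix (Fin 5) (Fin 5) R)ˣ, Up 1 ((u : Matrix (Fin 5) (Fin 5) R) - 1) →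
        Up 1 ((v : Matrix (Fin 5) (Fin 5) R) - 1) → Up 1 ((u * v : (Matrix (Fin 5) (Fin 5) R)ˣ) - 1 : Matrix (Fin 5) (Fin 5) R) := by
      intro u v hu hv
      have h : ((u * v : (Matrix (Fin 5) (Fin 5) R)ˣ) - 1 : Matrix (Fin 5) (Fin 5) R)
          = (u.val - 1) * (v.val - 1) + (u.val - 1) + (v.val - 1) := by
        rw [Units.val_mul]; noncomm_ring
      rw [h]
      exact (((hu.mul hv).mono (by norm_num)).add hu).add hv
    rintro u v ⟨hu, hu'⟩ ⟨hv, hv'⟩
    refine ⟨key u v hu hv, ?_⟩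
    rw [_root_.mul_inv_rev]
    exact key _ _ hv' hu'
  inv_mem' := by
    rintro u ⟨hu, hu'⟩
    refine ⟨hu', ?_⟩
    rwa [inv_inv]

theorem Un.pow_eq_one {q : ℕ} [hq : Fact q.Prime] (h5 : 5 ≤ q) {u : (Matrix (Fin 5) (Fin 5) (ZMod q))ˣ}
    (hu : u ∈ Un (ZMod q)) : u ^ q = 1 := by
  ext1
  have h1 : (u : Matrix (Fin 5) (Fin 5) (ZMod q)) = 1 + (u.val - 1) := by abel
  rw [Units.val_pow_eq_pow_val, h1, add_pow_char_of_commute _ (Commute.one_left _), one_pow]
  rw [(hu.1.pow q).eq_zero h5, add_zero, Units.val_one]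

/-- elementary unipotent. -/
def el (i j : Fin 5) (hij : i ≠ j) (r : R) : (Matrix (Fin 5) (Fin 5) R)ˣ where
  val := 1 + Matrix.single i j r
  inv := 1 - Matrix.single i j r
  val_inv := by
    rw [mul_sub, mul_one, add_mul, one_mul, Matrix.single_mul_single_of_ne _ _ _ _ hij.symm, add_zero]
    abel
  inv_val := by
    rw [mul_add, mul_one, sub_mul, one_mul, Matrix.single_mul_single_of_ne _ _ _ _ hij.symm, sub_zero]
    abel

theorem el_mem (i j : Fin 5) (hij : i ≠ j) (h : i < j) (r : R) : el i j hij r ∈ Un R := by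
  have h1 : Up 1 (Matrix.single i j r) := by
    intro k l hkl
    rw [Matrix.single_apply_of_ne]
    rintro ⟨rfl, rfl⟩
    have : (i : ℕ) < j := h
    omega
  constructor
  · have h2 : (el i j hij r).val - 1 = Matrix.single i j r := by
      show 1 + Matrix.single i j r - 1 = _
      abel
    rw [h2]; exact h1
  · have h2 : ((el i j hij r)⁻¹).val - 1 = - Matrix.single i j r := by
      show 1 - Matrix.single i j r - 1 = _
      abel
    rw [h2]; exact h1.neg

theorem el_comm {i j k : Fin 5} (hij : i ≠ j) (hjk : j ≠ k) (hik : i ≠ k) (r s : R) :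
    ⁅el i j hij r, el j k hjk s⁆ = el i k hik (r * s) := by
  rw [commutatorElement_def, mul_inv_eq_iff_eq_mul, mul_inv_eq_iff_eq_mul]
  ext1
  simp only [Units.val_mul]
  show (1 + Matrix.single i j r) * (1 + Matrix.single j k s)
    = (1 + Matrix.single i k (r * s)) * (1 + Matrix.single j k s) * (1 + Matrix.single i j r)
  have h1 : Matrix.single i j r * Matrix.single j k s = Matrix.single i k (r * s) :=
    Matrix.single_mul_single_same _ _ _ _ _
  have h2 : Matrix.single i k (r * s) * Matrix.single j k s = 0 :=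
    Matrix.single_mul_single_of_ne _ _ _ _ hjk.symm _
  have h3 : Matrix.single j k s * Matrix.single i j r = 0 :=
    Matrix.single_mul_single_of_ne _ _ _ _ hik.symm _
  have h4 : Matrix.single i k (r * s) * Matrix.single i j r = 0 :=
    Matrix.single_mul_single_of_ne _ _ _ _ hik.symm _
  simp only [mul_add, add_mul, one_mul, mul_one, h1, h2, h3, h4, zero_mul]
  abel

theorem el_ne_one {i j : Fin 5} (hij : i ≠ j) {r : R} (hr : r ≠ 0) : el i j hij r ≠ 1 := by
  intro h
  have h1 := congrArg (fun u : (Matrix (Fin 5) (Fin 5) R)ˣ => u.val i j) h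
  have h2 : (1 + Matrix.single i j r) i j = (1 : Matrix (Fin 5) (Fin 5) R) i j := h1
  rw [Matrix.add_apply, Matrix.one_apply_ne hij, zero_add, Matrix.single_apply_same] at h2
  exact hr h2

end

section

variable (q : ℕ)

/-- images of generators, first representation -/
def r1 (i : Fin 6) : (Matrix (Fin 5) (Fin 5) (ZMod q))ˣ :=
  match i with
  | 0 => 1
  | 1 => 1
  | 2 => el 0 1 (by decide) 1
  | 3 => el 1 2 (by decide) 1
  | 4 => el 2 3 (by decide) 1
  | 5 => el 3 4 (by decide) 1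

/-- images of generators, second representation -/
def r2 (i : Fin 6) : (Matrix (Fin 5) (Fin 5) (ZMod q))ˣ :=
  match i with
  | 0 => el 0 1 (by decide) 1
  | 1 => el 1 2 (by decide) 1
  | 2 => 1
  | 3 => 1
  | 4 => 1
  | 5 => 1

theorem r1_mem (i : Fin 6) : r1 q i ∈ Un (ZMod q) := by
  fin_cases i
  · exact one_mem _
  · exact one_mem _
  · exact el_mem _ _ (by decide) (by decide) _
  · exact el_mem _ _ (by decide) (by decide) _
  · exact el_mem _ _ (by decide) (by decide) _
  · exact el_mem _ _ (by decide) (by decide) _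

theorem r2_mem (i : Fin 6) : r2 q i ∈ Un (ZMod q) := by
  fin_cases i
  · exact el_mem _ _ (by decide) (by decide) _
  · exact el_mem _ _ (by decide) (by decide) _
  · exact one_mem _
  · exact one_mem _
  · exact one_mem _
  · exact one_mem _

theorem lift_mem {G : Type*} [Group G] (S : Subgroup G) {α : Type*} (f : α → G) (hf : ∀ i, f i ∈ S)
    (w : FreeGroup α) : FreeGroup.lift f w ∈ S := by
  induction w using FreeGroup.induction_on with
  | C1 => rw [map_one]; exact one_mem _
  | of i => rw [FreeGroup.lift_apply_of]; exact hf i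
  | inv_of i _ => rw [map_inv]; rw [FreeGroup.lift_apply_of]; exact inv_mem (hf i)
  | mul x y hx hy => rw [map_mul]; exact mul_mem hx hy

theorem cc_eq : cc = ⁅⁅(FreeGroup.of 2 : F6), (FreeGroup.of 3 : F6)⁆,
    ⁅(FreeGroup.of 4 : F6), (FreeGroup.of 5 : F6)⁆⁆ := by
  decide

variable [hq : Fact q.Prime] (h5 : 5 ≤ q)

include h5 in
theorem not_root_cc (η : F6) : η ^ q ≠ gg ^ q * cc := by
  intro h
  have h1 := congrArg (FreeGroup.lift (r1 q)) h
  have h2 : ∀ w, (FreeGroup.lift (r1 q) w) ^ q = 1 := fun w =>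
    Un.pow_eq_one h5 (lift_mem _ _ (r1_mem q) w)
  rw [map_mul, map_pow, map_pow, h2, h2, one_mul, cc_eq, map_commutatorElement, map_commutatorElement,
    map_commutatorElement] at h1
  simp only [FreeGroup.lift_apply_of] at h1
  have h3 : ⁅⁅r1 q 2, r1 q 3⁆, ⁅r1 q 4, r1 q 5⁆⁆ = el 0 4 (by decide) (1 * 1 * (1 * 1)) := by
    show ⁅⁅el 0 1 (by decide) (1 : ZMod q), el 1 2 (by decide) 1⁆, ⁅el 2 3 (by decide) (1 : ZMod q), el 3 4 (by decide) 1⁆⁆ = _
    rw [el_comm (i := 0) (j := 1) (k := 2) (by decide) (by decide) (by decide),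
      el_comm (i := 2) (j := 3) (k := 4) (by decide) (by decide) (by decide),
      el_comm (i := 0) (j := 2) (k := 4) (by decide) (by decide) (by decide)]
  rw [h3] at h1
  exact el_ne_one _ (by simp) h1.symm

include h5 in
theorem not_root_gg (η : F6) {j : ℕ} (hj : Nat.Coprime j q) : η ^ q ≠ gg ^ j := by
  intro h
  have h1 := congrArg (FreeGroup.lift (r2 q)) h
  have h2 : ∀ w, (FreeGroup.lift (r2 q) w) ^ q = 1 := fun w =>
    Un.pow_eq_one h5 (lift_mem _ _ (r2_mem q) w)
  rw [map_pow, map_pow, h2] at h1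
  have h3 : FreeGroup.lift (r2 q) gg = 1 := by
    rw [← orderOf_eq_one_iff, ← Nat.dvd_one, ← hj.gcd_eq_one]
    exact Nat.dvd_gcd (orderOf_dvd_of_pow_eq_one h1.symm) (orderOf_dvd_of_pow_eq_one (h2 _))
  rw [gg_eq, map_commutatorElement] at h3
  simp only [FreeGroup.lift_apply_of] at h3
  have h4 : ⁅r2 q 0, r2 q 1⁆ = el 0 2 (by decide) (1 * 1) := by
    show ⁅el 0 1 (by decide) (1 : ZMod q), el 1 2 (by decide) 1⁆ = _
    rw [el_comm (i := 0) (j := 1) (k := 2) (by decide) (by decide) (by decide)]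
  rw [h4] at h3
  exact el_ne_one _ (by simp) h3

include h5 in
theorem not_root_gg_cc (η : F6) {j : ℕ} (hj : Nat.Coprime j q) : η ^ q ≠ gg ^ j * cc := by
  intro h
  have h1 := congrArg (FreeGroup.lift (r2 q)) h
  have h2 : ∀ w, (FreeGroup.lift (r2 q) w) ^ q = 1 := fun w =>
    Un.pow_eq_one h5 (lift_mem _ _ (r2_mem q) w)
  have hcc : FreeGroup.lift (r2 q) cc = 1 := by
    rw [cc_eq, map_commutatorElement, map_commutatorElement]
    have : FreeGroup.lift (r2 q) (FreeGroup.of 2) = 1 := by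
      rw [FreeGroup.lift_apply_of]; rfl
    rw [this]
    simp [commutatorElement_def]
  rw [map_mul, map_pow, map_pow, h2, hcc, mul_one] at h1
  have h3 : FreeGroup.lift (r2 q) gg = 1 := by
    rw [← orderOf_eq_one_iff, ← Nat.dvd_one, ← hj.gcd_eq_one]
    exact Nat.dvd_gcd (orderOf_dvd_of_pow_eq_one h1.symm) (orderOf_dvd_of_pow_eq_one (h2 _))
  rw [gg_eq, map_commutatorElement] at h3
  simp only [FreeGroup.lift_apply_of] at h3
  have h4 : ⁅r2 q 0, r2 q 1⁆ = el 0 2 (by decide) (1 * 1) := by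
    show ⁅el 0 1 (by decide) (1 : ZMod q), el 1 2 (by decide) 1⁆ = _
    rw [el_comm (i := 0) (j := 1) (k := 2) (by decide) (by decide) (by decide)]
  rw [h4] at h3
  exact el_ne_one _ (by simp) h3

end

end TFS
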