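import Mathlib
import Pool.Agent.Lib_helper1.TFS.Step
import Pool.Agent.Lib_helper1.TFS.Unip

/-!
# Towers and limits: definitions
-/

set_option autoImplicit false

namespace TFS

open Multiplicative (toAdd ofAdd)

/-- the `k`-th exponent: distinct primes `≥ 5`. -/
noncomputable def qq (k : ℕ) : ℕ := Nat.nth Nat.Prime (k + 2)

theorem qq_prime (k : ℕ) : (qq k).Prime := Nat.prime_nth_prime _

theorem qq_strictMono : StrictMono qq := by
  intro a b hab
  exact Nat.nth_strictMono Nat.infinite_setOfPred_prime (by omega)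

theorem qq_ge (k : ℕ) : 5 ≤ qq k := by
  have h0 : 5 ≤ qq 0 := by
    have h2 : Nat.nth Nat.Prime 0 = 2 := Nat.nth_prime_zero_eq_two
    have h3 : Nat.nth Nat.Prime 1 = 3 := Nat.nth_prime_one_eq_three
    have h4 : Nat.nth Nat.Prime 1 < Nat.nth Nat.Prime 2 :=
      Nat.nth_strictMono Nat.infinite_setOfPred_prime (by norm_num)
    have h5 : (Nat.nth Nat.Prime 2).Prime := Nat.prime_nth_prime _
    show 5 ≤ Nat.nth Nat.Prime 2
    by_contra h
    have h6 : Nat.nth Nat.Prime 2 = 4 := by omega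
    rw [h6] at h5
    exact absurd h5 (by norm_num)
  exact h0.trans (qq_strictMono.monotone (Nat.zero_le k))

theorem qq_coprime {j k : ℕ} (h : j ≠ k) : Nat.Coprime (qq j) (qq k) :=
  (Nat.coprime_primes (qq_prime j) (qq_prime k)).2 (qq_strictMono.injective.ne h)

/-- the elements `x_k`: `g^{q_k}` if `ε = true`, `g^{q_k} [a,b]` if `ε = false`. -/
noncomputable def xx (k : ℕ) (ε : Bool) : F6 := if ε then gg ^ qq k else gg ^ qq k * cc

/-- a tower of stages. -/
structure Tower where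
  /-- the stages -/
  S : ℕ → St
  /-- the steps -/
  st : ∀ k, Step (S k) (S (k + 1))
  subB : Subsingleton (S 0).B
  /-- first point -/
  w1 : (S 0).Ω
  /-- second point -/
  w2 : (S 0).Ω
  w12 : w1 ≠ w2
  detect : ∀ (ε : ℕ → Bool) (k : ℕ) (f : ∀ m, (S m).G),
    (∀ m, k ≤ m → f (m + 1) = (st m).c (xx m (ε m)) (f m)) → f k ≠ 1 →
      ∃ m, k ≤ m ∧ (S m).perm (f m) ≠ 1

/-- the connecting maps of a tower attached to `ε`. -/
noncomputable def Tower.c (T : Tower) (ε : ℕ → Bool) (k : ℕ) : (T.S k).G →* (T.S (k + 1)).G :=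
  (T.st k).c (xx k (ε k))

/-- `Γ` is the direct limit (union) of the sequence `(G k, c k)`. -/
structure IsLim {G : ℕ → Type} [∀ k, Group (G k)] (c : ∀ k, G k →* G (k + 1)) {Γ : Type} [Group Γ]
    (ι : ∀ k, G k →* Γ) : Prop where
  inj : ∀ k, Function.Injective (ι k)
  comp : ∀ k f, ι (k + 1) (c k f) = ι k f
  surj : ∀ g, ∃ k f, ι k f = g

end TFS
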