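import Mathlib
import Pool.Agent.Lib_helper1.TFS.TowerDef

/-!
# Direct limits
-/

set_option autoImplicit false

namespace TFS

section

variable (G : ℕ → Type) [∀ k, Group (G k)] (c : ∀ k, G k →* G (k + 1))

/-- iterated connecting maps -/
def itc : ∀ i j, i ≤ j → (G i →* G j) := fun i _ h =>
  Nat.leRec (motive := fun j _ => G i →* G j) (MonoidHom.id (G i)) (fun k _ φ => (c k).comp φ) h

theorem itc_self (i : ℕ) (h : i ≤ i) : itc G c i i h = MonoidHom.id (G i) := Nat.leRec_self _ _

theorem itc_succ {i j : ℕ} (h : i ≤ j) (h' : i ≤ j + 1) :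
    itc G c i (j + 1) h' = (c j).comp (itc G c i j h) := Nat.leRec_succ _ _ _

theorem itc_comp {i j k : ℕ} (hij : i ≤ j) (hjk : j ≤ k) (x : G i) :
    itc G c j k hjk (itc G c i j hij x) = itc G c i k (hij.trans hjk) x := by
  induction k, hjk using Nat.le_induction with
  | base => rw [itc_self]; rfl
  | succ k hjk ih =>
    rw [itc_succ G c hjk, itc_succ G c (hij.trans hjk), MonoidHom.comp_apply, ih]
    rfl

instance : DirectedSystem G (fun i j h => itc G c i j h) where
  map_self i x := by rw [itc_self]; rfl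
  map_map k j i hij hjk x := itc_comp G c hij hjk x

theorem exists_limit (hc : ∀ k, Function.Injective (c k)) :
    ∃ (Γ : Type) (_ : Group Γ) (ι : ∀ k, G k →* Γ), IsLim c ι := by
  have hinj : ∀ i j hij, Function.Injective (itc G c i j hij) := by
    intro i j hij
    induction j, hij using Nat.le_induction with
    | base => rw [itc_self]; exact Function.injective_id
    | succ k hjk ih =>
      rw [itc_succ G c hjk]
      exact (hc k).comp ih
  refine ⟨DirectLimit G (itc G c), inferInstance,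
    fun k => ⟨⟨fun x => ⟦⟨k, x⟩⟧, (DirectLimit.one_def k).symm⟩, fun x y => (DirectLimit.mul_def k x y).symm⟩, ?_, ?_, ?_⟩
  · intro k
    exact DirectLimit.mk_injective (itc G c) hinj k
  · intro k f
    have := DirectLimit.eq_of_le (f := itc G c) (⟨k, f⟩ : Σ k, G k) (k + 1) (Nat.le_succ k)
    rw [itc_succ G c (le_refl k), itc_self] at this
    exact this.symm
  · intro g
    induction g using DirectLimit.induction with
    | _ i x => exact ⟨i, x, rfl⟩

variable {G c} {Γ : Type} [Group Γ] {ι : ∀ k, G k →* Γ}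

theorem IsLim.itc (h : IsLim c ι) {i j : ℕ} (hij : i ≤ j) (x : G i) :
    ι j (itc G c i j hij x) = ι i x := by
  induction j, hij using Nat.le_induction with
  | base => rw [itc_self]; rfl
  | succ k hjk ih => rw [itc_succ G c hjk, MonoidHom.comp_apply, h.comp, ih]

theorem IsLim.surj_ge (h : IsLim c ι) (m : ℕ) (g : Γ) : ∃ k, m ≤ k ∧ ∃ x, ι k x = g := by
  obtain ⟨k, x, rfl⟩ := h.surj g
  exact ⟨max m k, le_max_left _ _, TFS.itc G c k (max m k) (le_max_right _ _) x, h.itc _ x⟩

theorem IsLim.torsionFree (h : IsLim c ι) (hG : ∀ k (x : G k), x ≠ 1 → ¬ IsOfFinOrder x) :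
    ∀ g : Γ, g ≠ 1 → ¬ IsOfFinOrder g := by
  intro g hg hfin
  obtain ⟨k, x, rfl⟩ := h.surj g
  refine hG k x ?_ ?_
  · rintro rfl
    exact hg (map_one _)
  · rwa [(h.inj k).isOfFinOrder_iff] at hfin

theorem IsLim.countable (h : IsLim c ι) (hG : ∀ k, Countable (G k)) : Countable Γ := by
  have : Function.Surjective (fun p : Σ k, G k => ι p.1 p.2) := by
    intro g
    obtain ⟨k, x, hx⟩ := h.surj g
    exact ⟨⟨k, x⟩, hx⟩
  exact this.countable

end

theorem Tower.perm_c_ne (T : Tower) (ε : ℕ → Bool) (k : ℕ) (f : (T.S k).G)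
    (h : (T.S k).perm f ≠ 1) : (T.S (k + 1)).perm (T.c ε k f) ≠ 1 := by
  intro h1
  apply h
  ext ω
  have h2 := (T.st k).perm_c_i (xx k (ε k)) f ω
  have h3 : (T.S (k + 1)).perm ((T.st k).c (xx k (ε k)) f) = 1 := h1
  rw [h3] at h2
  exact ((T.st k).i_inj h2).symm

theorem Tower.isSimpleGroup (T : Tower) (ε : ℕ → Bool) {Γ : Type} [Group Γ]
    {ι : ∀ k, (T.S k).G →* Γ} (h : IsLim (T.c ε) ι) : IsSimpleGroup Γ := by
  have hnt : Nontrivial Γ := by
    let x : (T.S 0).G := ⟨AltAct.dd (T.S 0).act (1, 1, Multiplicative.ofAdd 1) T.w1 T.w2,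
      AltAct.dd_mem _ _ _⟩
    refine ⟨ι 0 x, 1, fun hx => ?_⟩
    have hx1 : x = 1 := by
      apply h.inj 0
      rw [hx, map_one]
    have h1 : St.v x T.w1 = 1 := by rw [hx1]; rfl
    have h2 : St.v x T.w1 = (1, 1, Multiplicative.ofAdd 1) := by
      show (AltAct.dd (T.S 0).act _ T.w1 T.w2).v T.w1 = _
      rw [AltAct.dd_v T.w12, if_pos rfl]
    rw [h2, Prod.mk_eq_one, Prod.mk_eq_one, ofAdd_eq_one] at h1
    exact one_ne_zero h1.2.2
  refine { eq_bot_or_eq_top_of_normal := fun N hN => ?_ }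
  rcases N.bot_or_exists_ne_one with h1 | ⟨n, hn, hn1⟩
  · exact Or.inl h1
  right
  obtain ⟨k, f, rfl⟩ := h.surj n
  let F : ∀ m, (T.S m).G := fun m => if hkm : k ≤ m then itc _ (T.c ε) k m hkm f else 1
  have hF : ∀ m, k ≤ m → F (m + 1) = (T.st m).c (xx m (ε m)) (F m) := by
    intro m hm
    show (if hkm : k ≤ m + 1 then itc _ (T.c ε) k (m + 1) hkm f else 1) = _
    rw [dif_pos (by omega)]
    show _ = T.c ε m (if hkm : k ≤ m then itc _ (T.c ε) k m hkm f else 1)
    rw [dif_pos hm, itc_succ _ (T.c ε) hm]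
    rfl
  have hFι : ∀ m, k ≤ m → ι m (F m) = ι k f := by
    intro m hm
    show ι m (if hkm : k ≤ m then itc _ (T.c ε) k m hkm f else 1) = _
    rw [dif_pos hm, h.itc]
  have hFk : F k ≠ 1 := by
    intro h2
    have := hFι k le_rfl
    rw [h2, map_one] at this
    exact hn1 this.symm
  obtain ⟨m, hkm, hm⟩ := T.detect ε k F hF hFk
  have hm' : ∀ m', m ≤ m' → (T.S m').perm (F m') ≠ 1 := by
    intro m' hmm'
    induction m', hmm' using Nat.le_induction with
    | base => exact hm
    | succ j hj ih =>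
      rw [hF j (by omega)]
      exact T.perm_c_ne ε j _ ih
  rw [eq_top_iff]
  intro g _
  obtain ⟨m', hmm', x, rfl⟩ := h.surj_ge m g
  have h3 : Subgroup.normalClosure {F m'} ≤ N.comap (ι m') := by
    have : (N.comap (ι m')).Normal := hN.comap _
    apply Subgroup.normalClosure_le_normal
    rw [Set.singleton_subset_iff]
    show ι m' (F m') ∈ N
    rw [hFι m' (by omega)]
    exact hn
  rw [(T.S m').normalClosure _ (hm' m' hmm')] at h3
  exact h3 (Subgroup.mem_top x)

end TFS
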