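import Mathlib
import Pool.Agent.Lib_helper1.TFS.Limit
import Pool.Agent.Lib_helper4.TFS_C4
import Pool.Agent.Lib_helper52.TFS.A6

/-!
# The reduced group C*-algebras of the limits of a tower are isomorphic
-/

set_option autoImplicit false

namespace TFS

open Multiplicative (toAdd ofAdd)
open scoped commutatorElement

/-- `t` or `t[a,b]` in `F₃` -/
def tt (b : Bool) : F3 :=
  if b then FreeGroup.of 0 else FreeGroup.of 0 * ⁅(FreeGroup.of 1 : F3), FreeGroup.of 2⁆

theorem phq_tt (k : ℕ) (b : Bool) : phq (qq k) (tt b) = xx k b := by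
  cases b
  · exact phq_tc _
  · exact phq_t _

theorem norm_unitary_le' {E : Type*} [NormedRing E] [StarRing E] [CStarRing E] (u : unitary E) :
    ‖(u : E)‖ ≤ 1 := by
  rcases subsingleton_or_nontrivial E with h0 | h0
  · rw [Subsingleton.elim (u : E) 0]; simp
  · exact (CStarRing.norm_coe_unitary u).le

theorem au_any (b b' : Bool) (δ : ℝ) (hδ : 0 < δ) :
    ∃ u : unitary (BL F3), (u : BL F3) ∈ Cr F3 ∧ ∃ z : ℂ, ‖z‖ = 1 ∧
      ‖(u : BL F3) * lam (tt b) * star (u : BL F3) - z • lam (tt b')‖ ≤ δ := by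
  by_cases hbb : b = b'
  · subst hbb
    refine ⟨1, one_mem _, 1, by simp, ?_⟩
    simp [hδ.le]
  · obtain ⟨u, hu, z, hz, h⟩ := au_main δ hδ
    cases b
    · cases b'
      · exact absurd rfl hbb
      · refine ⟨star u, star_mem hu, star z, by simpa using hz, ?_⟩
        have hzz : star z * z = 1 := by
          have := RCLike.conj_mul z
          rw [hz] at this
          simpa using this
        set L : BL F3 := lam (FreeGroup.of (0 : Fin 3) *
          ⁅FreeGroup.of (1 : Fin 3), FreeGroup.of (2 : Fin 3)⁆) with hL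
        set X : BL F3 := lam (FreeGroup.of (0 : Fin 3)) with hX
        have e1 : star (u : BL F3) * (u : BL F3) = 1 := Unitary.coe_star_mul_self u
        have h1 : star (u : BL F3) * L * (u : BL F3) - star z • X
            = (star z • star (u : BL F3)) * (z • L - (u : BL F3) * X * star (u : BL F3))
              * (u : BL F3) := by
          have e2 : (star z • star (u : BL F3)) * (z • L - (u : BL F3) * X * star (u : BL F3))
              * (u : BL F3)
              = (star z * z) • (star (u : BL F3) * L * (u : BL F3))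
                - star z • ((star (u : BL F3) * (u : BL F3)) * X *
                  (star (u : BL F3) * (u : BL F3))) := by
            simp only [mul_sub, sub_mul, smul_mul_assoc, mul_smul_comm, smul_smul, mul_assoc,
              mul_comm z]
          rw [e2, e1, hzz, one_smul, one_mul, mul_one]
        show ‖star (u : BL F3) * L * star (star (u : BL F3)) - star z • X‖ ≤ δ
        rw [star_star, h1]
        have n1 : ‖(u : BL F3)‖ ≤ 1 := norm_unitary_le' u
        have n2 : ‖star z • star (u : BL F3)‖ ≤ 1 := by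
          rw [norm_smul, norm_star, hz, one_mul]
          exact norm_unitary_le' (star u)
        rw [norm_sub_rev] at h
        calc _ ≤ ‖star z • star (u : BL F3)‖ * ‖z • L - (u : BL F3) * X * star (u : BL F3)‖
              * ‖(u : BL F3)‖ :=
              (norm_mul_le _ _).trans (mul_le_mul_of_nonneg_right (norm_mul_le _ _) (norm_nonneg _))
          _ ≤ 1 * δ * 1 := by gcongr
          _ = δ := by ring
    · cases b'
      · exact ⟨u, hu, z, hz, h.le⟩
      · exact absurd rfl hbb

namespace Step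

variable {s t : St} (st : Step s t)

/-- elements supported on the old points -/
noncomputable def bs (y : s.Ω → t.A) (hy : ∏ ω, Abelianization.of (y ω) = 1) : t.G :=
  ⟨⟨st.up y, 1⟩, (st.prod_up y).trans hy⟩

/-- the base group of copies of `F₃` -/
noncomputable def P (q : ℕ) : (s.Ω → F3) →* t.G where
  toFun y := st.bs (fun ω => (phq q (y ω), 1, 1)) (by
    apply Finset.prod_eq_one
    intro ω _
    have h1 : ((phq q (y ω), 1, 1) : t.A) = MonoidHom.inl F6 (t.B × Multiplicative ℤ) (phq q (y ω)) := rfl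
    rw [h1]
    have h2 : commutator F6 ≤ (Abelianization.of.comp (MonoidHom.inl F6 (t.B × Multiplicative ℤ))).ker :=
      Abelianization.commutator_subset_ker _
    exact h2 (phq_mem q (y ω)))
  map_one' := by
    apply St.G.ext
    · intro w
      show st.up (fun ω => (phq q 1, 1, 1)) w = 1
      have : (fun ω : s.Ω => ((phq q 1, 1, 1) : t.A)) = 1 := by
        funext ω; rw [map_one]; rfl
      rw [this, map_one]; rfl
    · rfl
  map_mul' y y' := by
    apply St.G.ext
    · intro w
      show st.up (fun ω => (phq q (y ω * y' ω), 1, 1)) w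
        = st.up (fun ω => (phq q (y ω), 1, 1)) ((t.act 1) w) * st.up (fun ω => (phq q (y' ω), 1, 1)) w
      have : (fun ω : s.Ω => ((phq q (y ω * y' ω), 1, 1) : t.A))
          = (fun ω => (phq q (y ω), 1, 1)) * (fun ω => (phq q (y' ω), 1, 1)) := by
        funext ω; rw [map_mul]; simp
      rw [this, map_mul, map_one]; rfl
    · exact (mul_one _).symm

theorem v_P_i (q : ℕ) (y : s.Ω → F3) (ω : s.Ω) : St.v (st.P q y) (st.i ω) = (phq q (y ω), 1, 1) :=
  st.up_i _ ω

theorem v_P_of_ne (q : ℕ) (y : s.Ω → F3) {w : t.Ω} (hw : ∀ ω, st.i ω ≠ w) :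
    St.v (st.P q y) w = 1 := st.up_of_ne _ hw

theorem e_P (q : ℕ) (y : s.Ω → F3) : (t.inc (st.P q y)).e = 1 := rfl

theorem P_injective (q : ℕ) (hq : q ≠ 0) : Function.Injective (st.P q) := by
  intro y y' h
  funext ω
  have h1 : St.v (st.P q y) (st.i ω) = St.v (st.P q y') (st.i ω) := by rw [h]
  rw [v_P_i, v_P_i, Prod.mk.injEq] at h1
  exact phq_injective q hq h1.1

/-- the common part of the connecting maps -/
noncomputable def β (f : s.G) : t.G := st.c 1 f

theorem c_eq (q : ℕ) (x : F3) (f : s.G) :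
    st.c (phq q x) f = st.P q (fun ω => x ^ St.n f ((s.perm f)⁻¹ ω)) * st.β f := by
  apply St.G.ext
  · intro w
    show st.cv (phq q x) f w = St.v (st.P q _) (t.act (st.e f) w) * st.cv 1 f w
    rcases st.cases_w w with ⟨ω, rfl⟩ | rfl | ⟨h1, h2⟩
    · rw [st.e_i, st.v_P_i, st.cv_i, st.cv_i]
      simp [map_zpow]
    · rw [st.e_star, st.v_P_of_ne _ _ st.star_ne, st.cv_star, st.cv_star, one_mul]
    · rw [st.v_P_of_ne _ _ (st.act_ne h1), st.cv_of_ne _ _ h1 h2, st.cv_of_ne _ _ h1 h2, one_mul]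
  · exact (one_mul (st.e f)).symm

theorem β_conj (q : ℕ) (f : s.G) (ω : s.Ω) (h : F3) :
    st.β f * st.P q (Pi.mulSingle ω h) * (st.β f)⁻¹ = st.P q (Pi.mulSingle (s.perm f ω) h) := by
  rw [mul_inv_eq_iff_eq_mul]
  apply St.G.ext
  · intro w
    show st.cv 1 f (t.act 1 w) * St.v (st.P q _) w = St.v (st.P q _) (t.act (st.e f) w) * st.cv 1 f w
    rw [map_one, Equiv.Perm.one_apply]
    rcases st.cases_w w with ⟨ω', rfl⟩ | rfl | ⟨h1, h2⟩
    · rw [st.e_i, st.v_P_i, st.v_P_i, st.cv_i]
      by_cases hω : ω' = ω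
      · subst hω
        simp
      · rw [Pi.mulSingle_eq_of_ne hω, Pi.mulSingle_eq_of_ne ((s.perm f).injective.ne hω)]
        simp
    · rw [st.e_star, st.v_P_of_ne _ _ st.star_ne, st.v_P_of_ne _ _ st.star_ne, one_mul, mul_one]
    · rw [st.v_P_of_ne _ _ (st.act_ne h1), st.v_P_of_ne _ _ h1, one_mul, mul_one]
  · show st.e f * 1 = 1 * st.e f
    rw [one_mul, mul_one]

theorem n_P (q : ℕ) (y : s.Ω → F3) (w : t.Ω) : St.n (st.P q y) w = 0 := by
  rw [St.n]
  by_cases h : ∃ ω, st.i ω = w
  · obtain ⟨ω, rfl⟩ := h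
    rw [st.v_P_i]; rfl
  · rw [st.v_P_of_ne _ _ (by simpa using h)]; rfl

theorem sum_abs_n_c (x : F6) (f : s.G) :
    ∑ w, |(St.n (st.c x f) w : ℝ)| = ∑ ω, |(St.n f ω : ℝ)| := by
  symm
  apply Fintype.sum_of_injective st.i st.i_inj
  · intro w hw
    rw [st.n_c_of_ne x f (fun ω hω => hw ⟨ω, hω⟩)]
    simp
  · intro ω
    rw [st.n_c_i]

end Step

/-- the C*-algebras of the limits of a tower are all isomorphic. -/
theorem Tower.cr_equiv (T : Tower) (ε ε' : ℕ → Bool) {Γ Γ' : Type} [Group Γ] [Group Γ']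
    {ι : ∀ k, (T.S k).G →* Γ} {ι' : ∀ k, (T.S k).G →* Γ'} (h : IsLim (T.c ε) ι)
    (h' : IsLim (T.c ε') ι') : Nonempty (Cr Γ ≃⋆ₐ[ℂ] Cr Γ') := by
  have hre : ∀ n (f : (T.S n).G), ∑ ω, |(St.n f (((T.S n).perm f)⁻¹ ω) : ℝ)|
      = ∑ ω, |(St.n f ω : ℝ)| := fun n f =>
    Equiv.sum_comp ((T.S n).perm f)⁻¹ (fun ω => |(St.n f ω : ℝ)|)
  exact intertwine_wreath (fun k => (T.S k).G) (T.c ε) (T.c ε') ι ι' h.inj h'.inj h.comp h'.comp
    h.surj h'.surj (H := F3) (fun n => (T.S n).Ω) (fun n => (T.st n).P (qq n))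
    (fun n => (T.st n).P_injective _ (qq_prime n).ne_zero)
    (fun n => tt (ε n)) (fun n => tt (ε' n)) (fun n => (1 / 2) ^ n) (fun n => by positivity)
    summable_geometric_two (fun n => au_any _ _ _ (by positivity))
    (fun n f ω => St.n f (((T.S n).perm f)⁻¹ ω))
    (fun n f => (Equiv.sum_comp ((T.S n).perm f)⁻¹ (fun ω => St.n f ω)).trans (St.sum_n f))
    (fun n f => by
      rw [hre, hre]; exact ((T.st n).sum_abs_n_c _ f).le)
    (fun n f => by
      rw [hre, hre]; exact ((T.st n).sum_abs_n_c _ f).le)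
    (fun n φ ω => (T.st n).n_P _ _ _)
    (fun n f => (T.st n).β f) (fun n f => (T.S n).perm f)
    (fun n f ω g => (T.st n).β_conj _ f ω g)
    (fun n f => by
      rw [← (T.st n).c_eq, phq_tt]; rfl)
    (fun n f => by
      rw [← (T.st n).c_eq, phq_tt]; rfl)

end TFS
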