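import Mathlib

/-!
# Reduced group C*-algebras: basics

`L2 G = ℓ²(G)`, left translations `lam g`, the reduced group C*-algebra `Cr G` (a closed star
subalgebra of `B(ℓ²G)`), the delta vectors `dl g`.
-/

set_option autoImplicit false

open scoped ENNReal

namespace TFS

/-- `ℓ²(G)`. -/
noncomputable abbrev L2 (G : Type*) := lp (fun _ : G => ℂ) 2

/-- bounded operators on `ℓ²(G)`. -/
noncomputable abbrev BL (G : Type*) := L2 G →L[ℂ] L2 G

section Perm

variable {X : Type*} {Y : Type*} {Z : Type*}

theorem memlp_comp (e : X ≃ Y) (f : L2 X) : Memℓp (fun y => f (e.symm y)) 2 := by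
  have h := lp.memℓp f
  rw [memℓp_gen_iff (by norm_num)] at h ⊢
  exact (e.symm.summable_iff (f := fun x => ‖f x‖ ^ (2 : ℝ≥0∞).toReal)).2 h

/-- the unitary `ℓ²(X) → ℓ²(Y)` induced by a bijection `e : X ≃ Y`: `(f ↦ f ∘ e.symm)`. -/
noncomputable def mapIso (e : X ≃ Y) : L2 X ≃ₗᵢ[ℂ] L2 Y where
  toFun f := ⟨fun y => f (e.symm y), memlp_comp e f⟩
  invFun f := ⟨fun x => f (e x), memlp_comp e.symm f⟩
  left_inv f := by ext x; simp
  right_inv f := by ext x; simp
  map_add' f g := by
    ext x
    show (f + g) (e.symm x) = f (e.symm x) + g (e.symm x)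
    simp
  map_smul' c f := by
    ext x
    show (c • f) (e.symm x) = c * f (e.symm x)
    simp
  norm_map' f := by
    rw [lp.norm_eq_tsum_rpow (by norm_num), lp.norm_eq_tsum_rpow (by norm_num)]
    congr 1
    exact e.symm.tsum_eq (fun x => ‖f x‖ ^ (2 : ℝ≥0∞).toReal)

@[simp] theorem mapIso_apply (e : X ≃ Y) (f : L2 X) (y : Y) : mapIso e f y = f (e.symm y) := rfl

@[simp] theorem mapIso_symm_apply (e : X ≃ Y) (f : L2 Y) (x : X) :
    (mapIso e).symm f x = f (e x) := rfl

end Perm

open Classical in
/-- the delta vector. -/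
noncomputable def dl {G : Type*} (g : G) : L2 G := lp.single 2 g (1 : ℂ)

open Classical in
theorem dl_apply {G : Type*} (g h : G) : dl g h = if h = g then (1 : ℂ) else 0 := by
  rw [dl, lp.single_apply]
  by_cases hh : h = g
  · subst hh; simp
  · rw [Pi.single_apply, if_neg hh]

variable {G : Type*} [Group G]

/-- left translation operators as unitary operators. -/
noncomputable def lamEquiv (g : G) : L2 G ≃ₗᵢ[ℂ] L2 G := mapIso (Equiv.mulLeft g)

/-- left translation, as a bounded operator. -/
noncomputable def lam (g : G) : BL G := (lamEquiv g).toLinearIsometry.toContinuousLinearMap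

theorem lam_apply (g : G) (f : L2 G) (h : G) : lam g f h = f (g⁻¹ * h) := rfl

theorem lam_one : lam (1 : G) = 1 := by
  ext f h; simp [lam_apply]

theorem lam_mul (g h : G) : lam (g * h) = lam g * lam h := by
  ext f k
  simp [lam_apply, mul_assoc]

theorem star_lam (g : G) : star (lam g) = lam g⁻¹ := by
  rw [ContinuousLinearMap.star_eq_adjoint]
  symm
  rw [ContinuousLinearMap.eq_adjoint_iff]
  intro x y
  rw [lp.inner_eq_tsum, lp.inner_eq_tsum]
  rw [← (Equiv.mulLeft g⁻¹).tsum_eq]
  congr 1
  ext k
  simp [lam_apply]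

/-- left translation as a homomorphism to the unitary group. -/
noncomputable def lamU : G →* unitary (BL G) where
  toFun g := ⟨lam g, by
    rw [Unitary.mem_iff, star_lam, ← lam_mul, ← lam_mul]
    simp [lam_one]⟩
  map_one' := by ext1; exact lam_one
  map_mul' g h := by ext1; exact lam_mul g h

@[simp] theorem coe_lamU (g : G) : (lamU g : BL G) = lam g := rfl

theorem lam_dl (g h : G) : lam g (dl h) = dl (g * h) := by
  classical
  ext k
  rw [lam_apply, dl_apply, dl_apply]
  congr 1
  rw [eq_iff_iff]
  constructor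
  · rintro rfl; simp
  · rintro rfl; simp

variable (G) in
/-- the reduced group C*-algebra. -/
noncomputable def Cr : StarSubalgebra ℂ (BL G) :=
  (StarAlgebra.adjoin ℂ (Set.range (lam : G → BL G))).topologicalClosure

theorem isClosed_Cr : IsClosed (Cr G : Set (BL G)) :=
  StarSubalgebra.isClosed_topologicalClosure _

theorem lam_mem_Cr (g : G) : lam g ∈ Cr G :=
  StarSubalgebra.le_topologicalClosure _ (StarAlgebra.subset_adjoin ℂ _ ⟨g, rfl⟩)

/-- the set of operators in the frozen statement is the set of left translations. -/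
theorem setOf_translation_eq :
    {T : BL G | ∃ g : G, ∀ (f : L2 G) (h : G), T f h = f (g⁻¹ * h)}
      = Set.range (lam : G → BL G) := by
  ext T
  constructor
  · rintro ⟨g, hg⟩
    refine ⟨g, ?_⟩
    ext f h
    rw [lam_apply, hg]
  · rintro ⟨g, rfl⟩
    exact ⟨g, fun f h => rfl⟩

end TFS
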