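import Mathlib
import Pool.Agent.Lib_helper1.TFS.TowerDef

/-!
# Existence of a tower
-/

set_option autoImplicit false

namespace TFS

open Multiplicative (toAdd ofAdd)

theorem exists_step (s : St) (K : Subgroup s.G) (hK : Good K) :
    ∃ (t : St) (st : Step s t), ∀ f, f ∉ K → t.act (st.e f) ≠ 1 := by
  classical
  have hn := hK.normal
  have hfi := hK.finiteIndex
  let : Fintype (s.G ⧸ K) := Fintype.ofFinite _
  let ρ : s.G →* Equiv.Perm (s.Ω ⊕ ((s.G ⧸ K) ⊕ Unit)) :=
    (Equiv.Perm.sumCongrHom s.Ω ((s.G ⧸ K) ⊕ Unit)).comp (s.perm.prod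
      ((Equiv.Perm.sumCongrHom (s.G ⧸ K) Unit).comp
        ((MulAction.toPermHom s.G (s.G ⧸ K)).prod 1)))
  have h1 : ∀ f ω, ρ f (Sum.inl ω) = Sum.inl (s.perm f ω) := fun f ω => rfl
  have h2 : ∀ f (x : s.G ⧸ K), ρ f (Sum.inr (Sum.inl x)) = Sum.inr (Sum.inl (f • x)) :=
    fun f ω => rfl
  have h3 : ∀ f, ρ f (Sum.inr (Sum.inr ())) = Sum.inr (Sum.inr ()) := fun f => rfl
  have hker : s.perm.ker ⊓ K = ρ.ker := by
    ext f
    rw [Subgroup.mem_inf, MonoidHom.mem_ker, MonoidHom.mem_ker]
    constructor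
    · rintro ⟨hf, hf'⟩
      ext w
      rcases w with ω | x | ⟨⟩
      · rw [h1, hf]; rfl
      · rw [h2]
        induction x using QuotientGroup.induction_on with
        | H g =>
          have h4 : f • (g : s.G ⧸ K) = g := by
            show ((f * g : s.G) : s.G ⧸ K) = g
            rw [QuotientGroup.eq, mul_inv_rev, mul_assoc]
            have := hn.conj_mem _ (inv_mem hf') g⁻¹
            rwa [inv_inv, mul_assoc] at this
          rw [h4]; rfl
      · exact h3 f
    · intro hf
      constructor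
      · ext ω
        have := h1 f ω
        rw [hf] at this
        exact (Sum.inl_injective this).symm
      · have := h2 f ((1 : s.G) : s.G ⧸ K)
        rw [hf] at this
        have h4 : ((1 : s.G) : s.G ⧸ K) = ((f * 1 : s.G) : s.G ⧸ K) :=
          Sum.inl_injective (Sum.inr_injective this)
        rw [mul_one] at h4
        exact (QuotientGroup.eq_one_iff f).1 h4.symm
  have hlp : LP ρ.ker := (s.lp_perm.inf hK.lp).of_eq hker
  have hcard : 5 ≤ Fintype.card (s.Ω ⊕ ((s.G ⧸ K) ⊕ Unit)) := by
    rw [Fintype.card_sum]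
    exact le_trans s.alt.card_ge (Nat.le_add_right _ _)
  obtain ⟨E, hE, act, e, halt, he, htf, hrfl, hlp', hcount⟩ := exists_cover hcard s.perfect ρ hlp
  let t : St :=
    { B := s.G
      Ω := s.Ω ⊕ ((s.G ⧸ K) ⊕ Unit)
      E := E
      act := act
      tB := s.tG
      rB := s.rG
      cB := s.countable_G
      tE := htf
      rE := hrfl
      cE := hcount
      alt := halt
      lp := hlp' }
  let st : Step s t :=
    { j := MulEquiv.refl _
      i := Sum.inl
      i_inj := Sum.inl_injective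
      star := Sum.inr (Sum.inr ())
      star_ne := fun ω h => by cases h
      e := e
      e_i := fun f ω => by
        show act (e f) (Sum.inl ω) = _
        rw [he, h1]
      e_star := fun f => by
        show act (e f) (Sum.inr (Sum.inr ())) = _
        rw [he, h3] }
  refine ⟨t, st, fun f hf h => hf ?_⟩
  have h5 : ρ f = 1 := by rw [← he]; exact h
  have h6 : f ∈ s.perm.ker ⊓ K := by rw [hker]; exact h5
  exact h6.2

theorem exists_init : ∃ s : St, Subsingleton s.B ∧ ∃ w1 w2 : s.Ω, w1 ≠ w2 := by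
  have hlp : LP (1 : Unit →* Equiv.Perm (Fin 5)).ker := by
    intro p hp r hr
    exact absurd (by rw [MonoidHom.mem_ker]; rfl) hr
  have hU : commutator Unit = ⊤ := by
    rw [eq_top_iff]
    intro x _
    exact one_mem _
  obtain ⟨E, hE, act, e, halt, he, htf, hrfl, hlp', hcount⟩ :=
    exists_cover (Ω := Fin 5) (by simp) hU 1 hlp
  let t : St :=
    { B := Unit
      Ω := Fin 5
      E := E
      act := act
      tB := fun x hx => absurd rfl hx
      rB := fun x hx => absurd rfl hx
      cB := inferInstance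
      tE := htf
      rE := hrfl
      cE := hcount
      alt := halt
      lp := hlp' }
  have h01 : (0 : Fin 5) ≠ 1 := by decide
  exact ⟨t, inferInstanceAs (Subsingleton Unit), (0 : Fin 5), (1 : Fin 5), h01⟩

/-- a stage with a list of tasks -/
structure TSt where
  /-- the stage -/
  s : St
  /-- the tasks -/
  T : ℕ → s.G

theorem exists_next (m : ℕ) (u : TSt) : ∃ (t : St) (st : Step u.s t),
    ∀ n < 4 ^ m, u.T n ≠ 1 → t.act (st.e (u.T n)) ≠ 1 := by
  classical
  obtain ⟨K, hK, h⟩ := u.s.rG.finset ((Finset.range (4 ^ m)).image u.T)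
  obtain ⟨t, st, hst⟩ := exists_step u.s K hK
  refine ⟨t, st, fun n hn hne => hst _ (h _ ?_ hne)⟩
  rw [Finset.mem_image]
  exact ⟨n, Finset.mem_range.2 hn, rfl⟩

/-- the next stage -/
noncomputable def nextS (m : ℕ) (u : TSt) : St := (exists_next m u).choose

/-- the step to the next stage -/
noncomputable def nextSt (m : ℕ) (u : TSt) : Step u.s (nextS m u) :=
  (exists_next m u).choose_spec.choose

theorem nextSt_spec (m : ℕ) (u : TSt) : ∀ n < 4 ^ m, u.T n ≠ 1 →
    (nextS m u).act ((nextSt m u).e (u.T n)) ≠ 1 := (exists_next m u).choose_spec.choose_spec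

theorem exists_enum (s : St) : ∃ f : ℕ → s.G, Function.Surjective f := by
  have := s.countable_G
  exact exists_surjective_nat s.G

/-- an enumeration of the group -/
noncomputable def enum (s : St) : ℕ → s.G := (exists_enum s).choose

theorem enum_surjective (s : St) : Function.Surjective (enum s) := (exists_enum s).choose_spec

/-- the next tasks -/
noncomputable def nextT (m : ℕ) (u : TSt) : ℕ → (nextS m u).G := fun n =>
  if n % 3 = 0 then (nextSt m u).c (xx m false) (u.T (n / 3))
  else if n % 3 = 1 then (nextSt m u).c (xx m true) (u.T (n / 3))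
  else enum (nextS m u) (n / 3)

/-- the tower with tasks -/
noncomputable def tw : ℕ → TSt
  | 0 => ⟨exists_init.choose, enum _⟩
  | (m + 1) => ⟨nextS m (tw m), nextT m (tw m)⟩

theorem tw_surj (k : ℕ) (f : (tw k).s.G) : ∃ n, (tw k).T n = f := by
  cases k with
  | zero => exact enum_surjective _ f
  | succ k =>
    obtain ⟨n, hn⟩ := enum_surjective (nextS k (tw k)) f
    refine ⟨3 * n + 2, ?_⟩
    show nextT k (tw k) (3 * n + 2) = f
    rw [nextT, if_neg (by omega), if_neg (by omega), ← hn]
    congr 1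
    omega

theorem tw_task (k : ℕ) (b : Bool) (n : ℕ) : ∃ n', n' ≤ 3 * n + 1 ∧
    (tw (k + 1)).T n' = (nextSt k (tw k)).c (xx k b) ((tw k).T n) := by
  cases b
  · refine ⟨3 * n, by omega, ?_⟩
    show nextT k (tw k) (3 * n) = _
    rw [nextT, if_pos (by omega)]
    congr 2
    omega
  · refine ⟨3 * n + 1, by omega, ?_⟩
    show nextT k (tw k) (3 * n + 1) = _
    rw [nextT, if_neg (by omega), if_pos (by omega)]
    congr 2
    omega

theorem four_pow_ge (d : ℕ) : 3 ^ d * (3 + d) ≤ 3 * 4 ^ d := by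
  induction d with
  | zero => simp
  | succ d ih =>
    have h1 : 3 ^ (d + 1) * (3 + (d + 1)) ≤ 4 * (3 ^ d * (3 + d)) := by
      rw [pow_succ]; ring_nf; nlinarith [Nat.zero_le (3 ^ d), Nat.zero_le (3 ^ d * d)]
    calc 3 ^ (d + 1) * (3 + (d + 1)) ≤ 4 * (3 ^ d * (3 + d)) := h1
      _ ≤ 4 * (3 * 4 ^ d) := Nat.mul_le_mul_left _ ih
      _ = 3 * 4 ^ (d + 1) := by ring

theorem exists_tower : Nonempty Tower := by
  refine ⟨{
    S := fun k => (tw k).s
    st := fun k => nextSt k (tw k)
    subB := exists_init.choose_spec.1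
    w1 := exists_init.choose_spec.2.choose
    w2 := exists_init.choose_spec.2.choose_spec.choose
    w12 := exists_init.choose_spec.2.choose_spec.choose_spec
    detect := ?_ }⟩
  intro ε k f hf hne
  obtain ⟨n, hn⟩ := tw_surj k (f k)
  have key : ∀ d, ∃ n', n' + 1 ≤ 3 ^ d * (n + 1) ∧ f (k + d) = (tw (k + d)).T n' ∧ f (k + d) ≠ 1 := by
    intro d
    induction d with
    | zero => exact ⟨n, by simp, hn.symm, hne⟩
    | succ d ih =>
      obtain ⟨n', h1, h2, h3⟩ := ih
      obtain ⟨n'', h4, h5⟩ := tw_task (k + d) (ε (k + d)) n'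
      refine ⟨n'', ?_, ?_, ?_⟩
      · rw [pow_succ]; nlinarith
      · show f (k + d + 1) = (tw (k + d + 1)).T n''
        rw [hf (k + d) (by omega), h5, ← h2]
        rfl
      · show f (k + d + 1) ≠ 1
        rw [hf (k + d) (by omega)]
        intro h6
        apply h3
        apply (nextSt (k + d) (tw (k + d))).c_injective (xx (k + d) (ε (k + d)))
        rw [map_one]
        exact h6
  obtain ⟨n', h1, h2, h3⟩ := key (3 * n)
  refine ⟨k + 3 * n + 1, by omega, ?_⟩
  have h4 : n' < 4 ^ (k + 3 * n) := by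
    have h5 := four_pow_ge (3 * n)
    have h6 : 3 ^ (3 * n) * (n + 1) ≤ 4 ^ (3 * n) := by nlinarith
    have h7 : 4 ^ (3 * n) ≤ 4 ^ (k + 3 * n) := Nat.pow_le_pow_right (by norm_num) (by omega)
    omega
  have h5 := nextSt_spec (k + 3 * n) (tw (k + 3 * n)) n' h4 (by rw [← h2]; exact h3)
  rw [hf (k + 3 * n) (by omega)]
  rw [← h2] at h5
  exact h5

end TFS
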