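import Mathlib
import Pool.Agent.Lib_helper1.TFS.Assembly
import Pool.Agent.Lib_helper1.TFS.TowerEx
import Pool.Agent.Lib_helper52.TFS.D2

/-!
# Main theorem
-/

set_option autoImplicit false

namespace TFS

/-- there are non-isomorphic torsion-free simple groups with isomorphic reduced C*-algebras. -/
theorem main_theorem : ∃ (Γ₁ Γ₂ : Type) (_ : Group Γ₁) (_ : Group Γ₂),
      IsSimpleGroup Γ₁ ∧ IsSimpleGroup Γ₂ ∧
      (∀ g : Γ₁, g ≠ 1 → ¬ IsOfFinOrder g) ∧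
      (∀ g : Γ₂, g ≠ 1 → ¬ IsOfFinOrder g) ∧
      IsEmpty (Γ₁ ≃* Γ₂) ∧ Nonempty (Cr Γ₁ ≃⋆ₐ[ℂ] Cr Γ₂) := by
  obtain ⟨T⟩ := exists_tower
  have hex : ∀ ε : ℕ → Bool, ∃ (Γ : Type) (_ : Group Γ) (ι : ∀ k, (T.S k).G →* Γ),
      IsLim (T.c ε) ι := fun ε =>
    exists_limit (fun k => (T.S k).G) (T.c ε) (fun k => (T.st k).c_injective _)
  choose Γ gΓ ι h using hex
  obtain ⟨ε, hε⟩ := noniso T Γ ι h (fun _ => true)
  exact ⟨Γ (fun _ => true), Γ ε, gΓ _, gΓ _, T.isSimpleGroup _ (h _), T.isSimpleGroup _ (h _),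
    (h _).torsionFree (fun k => (T.S k).tG), (h _).torsionFree (fun k => (T.S k).tG), hε,
    T.cr_equiv _ _ (h _) (h _)⟩

end TFS
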